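import Pool.Agent.helper28.LCL.Main
import Pool.Agent.helper4.LCL.Centres

/-!
# Every free Borel action of `ℤ²` on a Polish space has a Baire measurable labelling

The gluing theorem (`build`) enters as the hypothesis `BuildStmt`.
-/

namespace LCLZ

open TopologicalSpace Set

/-- the statement of the gluing theorem -/
def BuildStmt : Prop :=
  ∀ (sz rr : ℕ → ℤ), (∀ k, 1 ≤ sz k) → (∀ k, 3 * sz k + 100 ≤ rr k) →
    (∀ j k, j < k → 4 * sz j + 100 ≤ sz k) →
    ∀ (C : ℕ → Set (ℤ × ℤ)), (∀ k, ∀ u ∈ C k, ∀ v ∈ C k, u ≠ v → rr k ≤ sd u v) →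
    ∀ (W : ℕ → ℤ × ℤ → ℕ → Set (ℤ × ℤ)),
    (∀ (k : ℕ) (v : ℤ × ℤ) (j : ℕ) (u : ℤ × ℤ), j < k → sd u 0 ≤ 2 * sz k → v + u ∈ C j →
      u ∈ W k v j) →
    ∀ (s : ∀ (k : ℕ) (v : ℤ × ℤ), Shape sz k (W k v)) (L : Cfg),
    (∀ x y, ∃ k, ∃ v ∈ C k, (s k v).mem (x - v.1) (y - v.2) ∧
      (∀ j < k, ∀ u ∈ C j, ¬ (s j u).mem (x - u.1) (y - u.2)) ∧
      L x y = (s k v).lab (x - v.1) (y - v.2)) →
    ∀ x y, Rl L x y

section pattern

variable (sz rr : ℕ → ℤ)
  (hS : ∀ k (O : ℕ → Set (ℤ × ℤ)), Sep rr k O → Nonempty (Shape sz k O))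

/-- the family of sets coded by a finite set -/
def fam (q : Finset (ℕ × (ℤ × ℤ))) : ℕ → Set (ℤ × ℤ) := fun j => {u | (j, u) ∈ q}

open Classical in
/-- the family of sets coded by a finite set, made separated by force -/
noncomputable def fam' (k : ℕ) (q : Finset (ℕ × (ℤ × ℤ))) : ℕ → Set (ℤ × ℤ) :=
  if Sep rr k (fam q) then fam q else fun _ => ∅

lemma fam'_sep (k : ℕ) (q : Finset (ℕ × (ℤ × ℤ))) : Sep rr k (fam' rr k q) := by
  unfold fam'
  split_ifs with h
  · exact h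
  · intro j _ u hu; exact absurd hu (Set.notMem_empty u)

/-- the chosen shapes -/
noncomputable def sg (k : ℕ) (q : Finset (ℕ × (ℤ × ℤ))) : Shape sz k (fam' rr k q) :=
  (hS k _ (fam'_sep rr k q)).some

/-- membership of a point in the chosen shape -/
def mq (k : ℕ) (q : Finset (ℕ × (ℤ × ℤ))) (p : ℤ × ℤ) : Prop := (sg sz rr hS k q).mem p.1 p.2

/-- label of a point in the chosen shape -/
noncomputable def lq (k : ℕ) (q : Finset (ℕ × (ℤ × ℤ))) (p : ℤ × ℤ) : Lab :=
  (sg sz rr hS k q).lab p.1 p.2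

lemma mq_bound {k : ℕ} {q : Finset (ℕ × (ℤ × ℤ))} {p : ℤ × ℤ} (h : mq sz rr hS k q p) :
    |p.1| ≤ sz k ∧ |p.2| ≤ sz k := by
  obtain ⟨h1, h2, h3, h4⟩ := h
  have a1 := (sg sz rr hS k q).ba
  have a2 := (sg sz rr hS k q).bb
  have a3 := (sg sz rr hS k q).blo p.1 h1 h2
  have a4 := (sg sz rr hS k q).bhi p.1 h1 h2
  constructor
  · rw [abs_le]; constructor <;> linarith
  · rw [abs_le]; constructor <;> linarith

lemma mq_zero (k : ℕ) (q : Finset (ℕ × (ℤ × ℤ))) : mq sz rr hS k q 0 :=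
  ⟨(sg sz rr hS k q).ha0, (sg sz rr hS k q).hb0, (sg sz rr hS k q).lo0, (sg sz rr hS k q).hi0⟩

end pattern

section action

variable {X : Type*} [AddAction (ℤ × ℤ) X] (sz : ℕ → ℤ) (V : ℕ → Set X)

open Classical in
/-- the pattern of centres of lower levels seen from a point -/
noncomputable def Q (k : ℕ) (y : X) : Finset (ℕ × (ℤ × ℤ)) :=
  ((Finset.range k) ×ˢ (Finset.Icc (-(2 * sz k)) (2 * sz k) ×ˢ
    Finset.Icc (-(2 * sz k)) (2 * sz k))).filter (fun p => p.2 +ᵥ y ∈ V p.1)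

lemma mem_Q {k : ℕ} {y : X} {j : ℕ} {u : ℤ × ℤ} :
    (j, u) ∈ Q sz V k y ↔ (j < k ∧ sd u 0 ≤ 2 * sz k) ∧ u +ᵥ y ∈ V j := by
  unfold Q sd
  simp only [Finset.mem_filter, Finset.mem_product, Finset.mem_range, Finset.mem_Icc,
    Prod.fst_zero, Prod.snd_zero, sub_zero, max_le_iff, abs_le]

variable (rr : ℕ → ℤ)
  (hsep : ∀ j, ∀ x ∈ V j, ∀ g : ℤ × ℤ, g ≠ 0 → sd g 0 < rr j → g +ᵥ x ∉ V j)

include hsep in
lemma V_sep {j : ℕ} {x : X} {u v : ℤ × ℤ} (hu : u +ᵥ x ∈ V j) (hv : v +ᵥ x ∈ V j) (hne : u ≠ v) :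
    rr j ≤ sd u v := by
  by_contra hcon
  push Not at hcon
  refine hsep j (v +ᵥ x) hv (u - v) (sub_ne_zero.2 hne) ?_ ?_
  · have : sd (u - v) 0 = sd u v := by simp [sd]
    rw [this]; exact hcon
  · rw [vadd_vadd, sub_add_cancel]; exact hu

include hsep in
lemma Q_sep (k : ℕ) (y : X) : Sep rr k (fam (Q sz V k y)) := by
  intro j _ u hu v hv hne
  have h1 : (j, u) ∈ Q sz V k y := hu
  have h2 : (j, v) ∈ Q sz V k y := hv
  exact V_sep V rr hsep ((mem_Q sz V).1 h1).2 ((mem_Q sz V).1 h2).2 hne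

variable (hS : ∀ k (O : ℕ → Set (ℤ × ℤ)), Sep rr k O → Nonempty (Shape sz k O))

/-- the island of level `k` with centre `v` is the smallest one containing the origin -/
def Own (x : X) (k : ℕ) (v : ℤ × ℤ) : Prop :=
  v +ᵥ x ∈ V k ∧ mq sz rr hS k (Q sz V k (v +ᵥ x)) (-v) ∧
    ∀ j < k, ∀ u : ℤ × ℤ, u +ᵥ x ∈ V j → ¬ mq sz rr hS j (Q sz V j (u +ᵥ x)) (-u)

include hsep in
lemma Own_unique (h2 : ∀ k, 3 * sz k + 100 ≤ rr k) (h1 : ∀ k, 1 ≤ sz k) {x : X} {k k' : ℕ}
    {v v' : ℤ × ℤ}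
    (h : Own sz V rr hS x k v) (h' : Own sz V rr hS x k' v') : k = k' ∧ v = v' := by
  have hk : k = k' := by
    rcases lt_trichotomy k k' with hlt | heq | hgt
    · exact absurd h.2.1 (h'.2.2 k hlt v h.1)
    · exact heq
    · exact absurd h'.2.1 (h.2.2 k' hgt v' h'.1)
  subst hk
  refine ⟨rfl, ?_⟩
  by_contra hne
  have t := V_sep V rr hsep h.1 h'.1 hne
  have b1 := mq_bound sz rr hS h.2.1
  have b2 := mq_bound sz rr hS h'.2.1
  simp only [Prod.fst_neg, Prod.snd_neg, abs_neg] at b1 b2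
  have : sd v v' ≤ 2 * sz k := by
    unfold sd
    refine max_le ?_ ?_
    · refine (abs_sub _ _).trans ?_
      linarith [b1.1, b2.1]
    · refine (abs_sub _ _).trans ?_
      linarith [b1.2, b2.2]
  have := h2 k
  have := h1 k
  linarith

lemma Own_exists {x : X} (hx : ∃ j, x ∈ V j) : ∃ k v, Own sz V rr hS x k v := by
  classical
  have hex : ∃ k, ∃ v : ℤ × ℤ, v +ᵥ x ∈ V k ∧ mq sz rr hS k (Q sz V k (v +ᵥ x)) (-v) := by
    obtain ⟨j, hj⟩ := hx
    refine ⟨j, 0, by rwa [zero_vadd], ?_⟩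
    rw [neg_zero]; exact mq_zero sz rr hS _ _
  obtain ⟨v, hv1, hv2⟩ := Nat.find_spec hex
  refine ⟨Nat.find hex, v, hv1, hv2, ?_⟩
  intro j hj u hu hm
  exact Nat.find_min hex hj ⟨u, hu, hm⟩

/-- the marker free label with colour `c` -/
def lab0 (c : ZMod 2) : Lab := ⟨false, false, false, false, false, Dr.z, c, 0⟩

/-- marker free configurations with the chequerboard colouring satisfy the rules -/
lemma rl_free (e : ZMod 2) (L : Cfg) (hLL : ∀ x y, L x y = lab0 (((x + y : ℤ) : ZMod 2) + e)) :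
    ∀ x y, Rl L x y := by
  have hB : ∀ x y, ¬ B L x y := by intro x y; unfold B; rw [hLL]; simp [lab0]
  have hLf : ∀ x y, ¬ Lf L x y := by intro x y; unfold Lf; rw [hLL]; simp [lab0]
  have hRt : ∀ x y, ¬ Rt L x y := by intro x y; unfold Rt; rw [hLL]; simp [lab0]
  have hT : ∀ x y, ¬ T L x y := by
    intro x y h; rcases h with h | h
    · exact hLf x y h
    · exact hRt x y h
  have hM : ∀ x y, ¬ M L x y := by
    intro x y h; rcases h with h | h
    · exact hB x y h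
    · exact hT x y h
  have hhR : ∀ x y, ¬ hR L x y := by
    intro x y h
    rcases h with h | h | ⟨m, _, _, h, _⟩
    · exact hB _ _ h.1
    · exact hT _ _ h.1
    · exact hB _ _ h
  have hhL : ∀ x y, ¬ hL L x y := by
    intro x y h
    rcases h with h | h | ⟨m, _, _, h, _⟩
    · exact hB _ _ h.1
    · exact hT _ _ h.1
    · exact hB _ _ h
  have hvU : ∀ x y, ¬ vU L x y := fun x y h => hT _ _ h
  have hvD : ∀ x y, ¬ vD L x y := fun x y h => hB _ _ h
  have hht : ∀ x y, ht L x y = 0 := by intro x y; unfold ht; rw [hLL]; rfl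
  have hcol : ∀ x y, col L x y = ((x + y : ℤ) : ZMod 2) + e := by
    intro x y; unfold col; rw [hLL]; rfl
  intro x y
  constructor
  case bl => exact fun h => absurd h (hB _ _)
  case br => exact fun h => absurd h (hB _ _)
  case lr => exact fun h => absurd h (hLf _ _)
  case nM => exact fun h => absurd h (hM _ _)
  case nS => exact fun h => absurd h (hM _ _)
  case nB => exact fun h => absurd h (hB _ _)
  case nL => exact fun h => absurd h (hLf _ _)
  case nR => exact fun h => absurd h (hRt _ _)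
  case pv => exact fun h => absurd h (hM _ _)
  case sp => exact fun h => absurd h (hM _ _)
  case sB => exact fun h => absurd h (hB _ _)
  case sT => exact fun h => absurd h (hT _ _)
  case eB => exact fun h => absurd h (hB _ _)
  case eT => exact fun h => absurd h (hT _ _)
  case es => exact fun h => absurd h (hB _ _)
  case slB => exact fun h => absurd h (hB _ _)
  case slL => exact fun h => absurd h (hLf _ _)
  case slL3 => exact fun h => absurd h (hLf _ _)
  case slR => exact fun h => absurd h (hRt _ _)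
  case slR3 => exact fun h => absurd h (hRt _ _)
  case cH => intro _; rw [hcol, hcol]; push_cast; ring
  case cV => intro _; rw [hcol, hcol]; push_cast; ring
  case fH => intro _; left; rw [hht, hht]; simp
  case fV => intro _; left; rw [hht, hht]; simp
  case fN => exact fun h => absurd h (hM _ _)
  case fE => exact fun h => absurd h (hB _ _)
  case oR1 => exact fun h => absurd h (hhR _ _)
  case oR2 => exact fun h => absurd h (hhR _ _)
  case oL1 => exact fun h => absurd h (hhL _ _)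
  case oL2 => exact fun h => absurd h (hhL _ _)
  case oU1 => exact fun h => absurd h (hvU _ _)
  case oU2 => exact fun h => absurd h (hvU _ _)
  case oD1 => exact fun h => absurd h (hvD _ _)
  case oD2 => exact fun h => absurd h (hvD _ _)

end action

section measurability

variable {X : Type*} [MeasurableSpace X] [AddAction (ℤ × ℤ) X] (sz : ℕ → ℤ) (V : ℕ → Set X)
  (hact : ∀ g : ℤ × ℤ, Measurable (fun x : X => g +ᵥ x)) (hV : ∀ j, MeasurableSet (V j))

include hact hV in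
lemma Q_meas (k : ℕ) (q : Finset (ℕ × (ℤ × ℤ))) : MeasurableSet {y : X | Q sz V k y = q} := by
  have : {y : X | Q sz V k y = q} =
      ⋂ p : ℕ × (ℤ × ℤ), {y : X | p ∈ Q sz V k y ↔ p ∈ q} := by
    ext y
    simp only [mem_ofPred_eq, mem_iInter]
    exact Finset.ext_iff
  rw [this]
  refine MeasurableSet.iInter ?_
  rintro ⟨j, u⟩
  have hm : MeasurableSet {y : X | (j, u) ∈ Q sz V k y} := by
    have : {y : X | (j, u) ∈ Q sz V k y} =
        {y : X | (j < k ∧ sd u 0 ≤ 2 * sz k) ∧ u +ᵥ y ∈ V j} := by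
      ext y; simp only [mem_ofPred_eq]; exact mem_Q sz V
    rw [this]
    exact (MeasurableSet.const _).inter (hact u (hV j))
  by_cases h : (j, u) ∈ q
  · simpa only [h, iff_true] using hm
  · have e : {y : X | (j, u) ∈ Q sz V k y ↔ (j, u) ∈ q} = {y : X | (j, u) ∈ Q sz V k y}ᶜ := by
      ext y; simp [h]
    rw [e]; exact hm.compl

include hact hV in
lemma Qset_meas (k : ℕ) (A : Finset (ℕ × (ℤ × ℤ)) → Prop) :
    MeasurableSet {y : X | A (Q sz V k y)} := by
  have : {y : X | A (Q sz V k y)} = ⋃ q : {q // A q}, {y : X | Q sz V k y = q.1} := by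
    ext y
    simp only [mem_ofPred_eq, mem_iUnion]
    exact ⟨fun h => ⟨⟨_, h⟩, rfl⟩, fun ⟨q, hq⟩ => hq ▸ q.2⟩
  rw [this]
  exact MeasurableSet.iUnion (fun q => Q_meas sz V hact hV k q.1)

variable (rr : ℕ → ℤ) (hS : ∀ k (O : ℕ → Set (ℤ × ℤ)), Sep rr k O → Nonempty (Shape sz k O))

include hact hV in
lemma Own_meas (k : ℕ) (v : ℤ × ℤ) : MeasurableSet {x : X | Own sz V rr hS x k v} := by
  have : {x : X | Own sz V rr hS x k v} = {x : X | v +ᵥ x ∈ V k} ∩
      ({x : X | mq sz rr hS k (Q sz V k (v +ᵥ x)) (-v)} ∩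
      ⋂ j : ℕ, ⋂ _ : j < k, ⋂ u : ℤ × ℤ,
        {x : X | u +ᵥ x ∈ V j ∧ mq sz rr hS j (Q sz V j (u +ᵥ x)) (-u)}ᶜ) := by
    ext x
    simp only [Own, mem_ofPred_eq, mem_inter_iff, mem_iInter, mem_compl_iff, not_and]
  rw [this]
  have hmq : ∀ j (u : ℤ × ℤ), MeasurableSet {x : X | mq sz rr hS j (Q sz V j (u +ᵥ x)) (-u)} :=
    fun j u => hact u (Qset_meas sz V hact hV j (fun q => mq sz rr hS j q (-u)))
  refine (hact v (hV k)).inter ((hmq k v).inter ?_)
  refine MeasurableSet.iInter fun j => MeasurableSet.iInter fun _ => MeasurableSet.iInter fun u => ?_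
  exact ((hact u (hV j)).inter (hmq j u)).compl

end measurability

/-- The Baire measurable labelling. -/
theorem baire_side_of_build (hB : BuildStmt) {X : Type*} [TopologicalSpace X] [PolishSpace X]
    [MeasurableSpace X] [BorelSpace X] [AddAction (ℤ × ℤ) X]
    (hact : ∀ g : ℤ × ℤ, Measurable (fun x : X => g +ᵥ x))
    (hfree : ∀ g : ℤ × ℤ, ∀ x : X, g +ᵥ x = x → g = 0) :
    ∃ F : X → Lab, (∀ A : Set Lab, BaireMeasurableSet (F ⁻¹' A)) ∧
      ∀ x : X, ∀ i j : ℤ, Rl (fun m n => F ((m, n) +ᵥ x)) i j := by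
  classical
  obtain ⟨sz, rr, h1, h2, h3, hS⟩ := exists_shapes
  -- the centres
  obtain ⟨V, hV, hVF, hres⟩ := Pool.Agent.helper4.LCL.exists_centres hact hfree
    (fun j => (Finset.Ioo (-(rr j)) (rr j) ×ˢ Finset.Ioo (-(rr j)) (rr j)).erase 0)
    (fun j => by simp)
  have hsep : ∀ j, ∀ x ∈ V j, ∀ g : ℤ × ℤ, g ≠ 0 → sd g 0 < rr j → g +ᵥ x ∉ V j := by
    intro j x hx g hg hlt
    refine hVF j x hx g ?_
    unfold sd at hlt
    simp only [Prod.fst_zero, Prod.snd_zero, sub_zero, max_lt_iff, abs_lt] at hlt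
    simp only [Finset.mem_erase, Finset.mem_product, Finset.mem_Ioo]
    exact ⟨hg, hlt⟩
  set G : Set X := {x : X | ∀ g : ℤ × ℤ, ∀ N, ∃ j ≥ N, g +ᵥ x ∈ V j} with hG
  have hGinv : ∀ (g : ℤ × ℤ) (x : X), g +ᵥ x ∈ G ↔ x ∈ G := by
    intro g x
    simp only [hG, mem_ofPred_eq]
    constructor
    · intro h g' N
      obtain ⟨j, hj, hj'⟩ := h (g' - g) N
      rw [vadd_vadd, sub_add_cancel] at hj'
      exact ⟨j, hj, hj'⟩
    · intro h g' N
      obtain ⟨j, hj, hj'⟩ := h (g' + g) N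
      refine ⟨j, hj, ?_⟩
      rw [vadd_vadd]; exact hj'
  have hown : ∀ x ∈ G, ∃ k v, Own sz V rr hS x k v := by
    intro x hx
    refine Own_exists sz V rr hS ?_
    obtain ⟨j, _, hj⟩ := hx 0 0
    rw [zero_vadd] at hj
    exact ⟨j, hj⟩
  -- base points of the orbits
  set rep : X → X := fun x => Quotient.out (Quotient.mk (AddAction.orbitRel (ℤ × ℤ) X) x) with hrep
  have hrepx : ∀ x, ∃ g : ℤ × ℤ, g +ᵥ rep x = x := by
    intro x
    have h := Quotient.mk_out (s := AddAction.orbitRel (ℤ × ℤ) X) x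
    have h' : (AddAction.orbitRel (ℤ × ℤ) X).r (rep x) x := h
    obtain ⟨g, hg⟩ := (AddAction.orbitRel (ℤ × ℤ) X).symm h'
    exact ⟨g, hg⟩
  have hrepinv : ∀ (g : ℤ × ℤ) x, rep (g +ᵥ x) = rep x := by
    intro g x
    simp only [hrep]
    congr 1
    exact Quotient.sound (s := AddAction.orbitRel (ℤ × ℤ) X) ⟨g, rfl⟩
  choose pos hpos using hrepx
  have hposinv : ∀ (g : ℤ × ℤ) x, pos (g +ᵥ x) = g + pos x := by
    intro g x
    have e1 := hpos (g +ᵥ x)
    rw [hrepinv] at e1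
    have e2 := hpos x
    have e3 : (-(g + pos x) + pos (g +ᵥ x)) +ᵥ rep x = rep x := by
      rw [← vadd_vadd, e1, neg_vadd_eq_iff, ← vadd_vadd, e2]
    have e4 := hfree _ _ e3
    have : pos (g +ᵥ x) - (g + pos x) = 0 := by rw [← e4]; abel
    exact sub_eq_zero.1 this
  -- the labelling
  set F : X → Lab := fun x =>
    if h : ∃ p : ℕ × (ℤ × ℤ), x ∈ G ∧ Own sz V rr hS x p.1 p.2 then
      lq sz rr hS h.choose.1 (Q sz V h.choose.1 (h.choose.2 +ᵥ x)) (-h.choose.2)
    else lab0 ((((pos x).1 + (pos x).2 : ℤ) : ZMod 2)) with hF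
  have hFown : ∀ x ∈ G, ∀ k v, Own sz V rr hS x k v →
      F x = lq sz rr hS k (Q sz V k (v +ᵥ x)) (-v) := by
    intro x hx k v ho
    have hex : ∃ p : ℕ × (ℤ × ℤ), x ∈ G ∧ Own sz V rr hS x p.1 p.2 := ⟨(k, v), hx, ho⟩
    have hc := hex.choose_spec
    obtain ⟨e1, e2⟩ := Own_unique sz V rr hsep hS h2 h1 hc.2 ho
    simp only [hF, dif_pos hex]
    rw [e2]
    generalize hex.choose.1 = k' at e1
    subst e1
    rfl
  refine ⟨F, ?_, ?_⟩
  · intro A
    set A' : Set X := ⋃ k : ℕ, ⋃ v : ℤ × ℤ, {x : X | Own sz V rr hS x k v} ∩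
      {x : X | lq sz rr hS k (Q sz V k (v +ᵥ x)) (-v) ∈ A} with hA'
    have hm : MeasurableSet A' := by
      refine MeasurableSet.iUnion fun k => MeasurableSet.iUnion fun v => ?_
      exact (Own_meas sz V hact hV rr hS k v).inter
        (hact v (Qset_meas sz V hact hV k (fun q => lq sz rr hS k q (-v) ∈ A)))
    refine hm.baireMeasurableSet.congr (Filter.EventuallyEq.symm ?_)
    filter_upwards [hres] with x hx
    apply propext
    constructor
    · intro h
      obtain ⟨k, v, ho⟩ := hown x hx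
      have h' : F x ∈ A := h
      rw [hFown x hx k v ho] at h'
      exact mem_iUnion.2 ⟨k, mem_iUnion.2 ⟨v, ho, h'⟩⟩
    · intro h
      obtain ⟨k, hk⟩ := mem_iUnion.1 h
      obtain ⟨v, ho, h'⟩ := mem_iUnion.1 hk
      show F x ∈ A
      rw [hFown x hx k v ho]
      exact h'
  · intro x
    by_cases hx : x ∈ G
    · -- good orbits
      refine hB sz rr h1 h2 h3 (fun j => {v : ℤ × ℤ | v +ᵥ x ∈ V j}) ?_
        (fun k v => fam' rr k (Q sz V k (v +ᵥ x))) ?_
        (fun k v => sg sz rr hS k (Q sz V k (v +ᵥ x))) (fun m n => F ((m, n) +ᵥ x)) ?_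
      · intro k u hu v hv hne
        exact V_sep V rr hsep hu hv hne
      · intro k v j u hj hu hvu
        have : fam' rr k (Q sz V k (v +ᵥ x)) = fam (Q sz V k (v +ᵥ x)) := by
          unfold fam'; rw [if_pos (Q_sep sz V rr hsep k (v +ᵥ x))]
        show u ∈ fam' rr k (Q sz V k (v +ᵥ x)) j
        rw [this]
        show (j, u) ∈ Q sz V k (v +ᵥ x)
        rw [mem_Q]
        refine ⟨⟨hj, hu⟩, ?_⟩
        rw [vadd_vadd, add_comm]; exact hvu
      · intro m n
        have hx' : (m, n) +ᵥ x ∈ G := (hGinv _ _).2 hx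
        obtain ⟨k, v, ho⟩ := hown _ hx'
        have tr : ∀ w : ℤ × ℤ, w +ᵥ ((m, n) +ᵥ x) = (w + (m, n)) +ᵥ x := fun w => by
          rw [vadd_vadd]
        have ex : (m - (v + (m, n)).1, n - (v + (m, n)).2) = -v := by
          ext <;> simp
        refine ⟨k, v + (m, n), ?_, ?_, ?_, ?_⟩
        · have := ho.1; rw [tr] at this; exact this
        · have := ho.2.1
          rw [tr] at this
          show mq sz rr hS k (Q sz V k ((v + (m, n)) +ᵥ x))
            (m - (v + (m, n)).1, n - (v + (m, n)).2)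
          rw [ex]; exact this
        · intro j hj u hu hm
          have := ho.2.2 j hj (u - (m, n))
          rw [tr, sub_add_cancel] at this
          refine this hu ?_
          have e : -(u - (m, n)) = (m - u.1, n - u.2) := by ext <;> simp
          rw [e]; exact hm
        · show F ((m, n) +ᵥ x) = lq sz rr hS k (Q sz V k ((v + (m, n)) +ᵥ x))
            (m - (v + (m, n)).1, n - (v + (m, n)).2)
          rw [ex, hFown _ hx' k v ho, tr]
    · -- bad orbits
      refine rl_free ((((pos x).1 + (pos x).2 : ℤ) : ZMod 2)) _ ?_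
      intro m n
      have hx' : (m, n) +ᵥ x ∉ G := fun h => hx ((hGinv _ _).1 h)
      have hno : ¬ ∃ p : ℕ × (ℤ × ℤ), (m, n) +ᵥ x ∈ G ∧
          Own sz V rr hS ((m, n) +ᵥ x) p.1 p.2 := fun ⟨_, h, _⟩ => hx' h
      simp only [hF, dif_neg hno, hposinv]
      congr 1
      push_cast
      simp only [Prod.fst_add, Prod.snd_add]
      push_cast
      ring

end LCLZ
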