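import Pool.Agent.helper28.LCL.Geo
import Pool.Agent.helper28.LCL.Baire

/-!
# A labelling glued from islands satisfies the rules
-/

namespace LCLZ

lemma sd_le_iff' (p q : ℤ × ℤ) (c : ℤ) : sd p q ≤ c ↔
    (-c ≤ p.1 - q.1 ∧ p.1 - q.1 ≤ c) ∧ (-c ≤ p.2 - q.2 ∧ p.2 - q.2 ≤ c) := by
  unfold sd; rw [max_le_iff, abs_le, abs_le]

lemma Dr.v_of {e : ℤ} (h1 : -1 ≤ e) (h2 : e ≤ 1) : (Dr.of e).v = e := by
  have : e = -1 ∨ e = 0 ∨ e = 1 := by omega
  rcases this with rfl | rfl | rfl <;> simp [Dr.of, Dr.v]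

/-- the outline of a shape translated to its centre -/
def Shape.geo {sz : ℕ → ℤ} {k : ℕ} {O : ℕ → Set (ℤ × ℤ)} (s : Shape sz k O) (v : ℤ × ℤ) : Geo where
  A := s.a + v.1
  T := s.t + v.1
  Z := s.b + v.1
  LO x := s.lo (x - v.1) + v.2
  HI x := s.hi (x - v.1) + v.2
  hat := by have := s.hat; omega
  htb := by have := s.htb; omega
  hst := by
    have := s.hst
    simp only [add_sub_cancel_right]; omega
  hen := by
    have := s.hen
    simp only [add_sub_cancel_right]; omega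
  lo1 := by
    intro i h1 h2
    have := s.lo1 (i - v.1) (by omega) (by omega)
    rw [abs_le] at this
    rw [show i + 1 - v.1 = i - v.1 + 1 by ring]
    omega
  lo2 := by
    intro i h1 h2
    have := s.lo2 (i - v.1) (by omega) (by omega)
    rw [abs_le] at this
    rw [show i + 2 - v.1 = i - v.1 + 2 by ring]
    omega
  hL1 := by
    intro i h1 h2
    have := s.hL1 (i - v.1) (by omega) (by omega)
    rw [show i + 1 - v.1 = i - v.1 + 1 by ring]
    omega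
  hL3 := by
    intro i h1 h2
    have := s.hL3 (i - v.1) (by omega) (by omega)
    rw [show i + 3 - v.1 = i - v.1 + 3 by ring]
    omega
  hR1 := by
    intro i h1 h2
    have := s.hR1 (i - v.1) (by omega) (by omega)
    rw [show i + 1 - v.1 = i - v.1 + 1 by ring]
    omega
  hR3 := by
    intro i h1 h2
    have := s.hR3 (i - v.1) (by omega) (by omega)
    rw [show i + 3 - v.1 = i - v.1 + 3 by ring]
    omega
  gap := by
    intro i h1 h2
    have := s.gap (i - v.1) (by omega) (by omega)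
    omega

/-- the data of the gluing theorem -/
structure Bd where
  sz : ℕ → ℤ
  rr : ℕ → ℤ
  h1 : ∀ k, 1 ≤ sz k
  h2 : ∀ k, 3 * sz k + 100 ≤ rr k
  h3 : ∀ j k, j < k → 4 * sz j + 100 ≤ sz k
  C : ℕ → Set (ℤ × ℤ)
  hC : ∀ k, ∀ u ∈ C k, ∀ v ∈ C k, u ≠ v → rr k ≤ sd u v
  W : ℕ → ℤ × ℤ → ℕ → Set (ℤ × ℤ)
  hW : ∀ (k : ℕ) (v : ℤ × ℤ) (j : ℕ) (u : ℤ × ℤ), j < k → sd u 0 ≤ 2 * sz k → v + u ∈ C j →
      u ∈ W k v j
  s : ∀ (k : ℕ) (v : ℤ × ℤ), Shape sz k (W k v)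
  L : Cfg
  hown : ∀ x y, ∃ k, ∃ v ∈ C k, (s k v).mem (x - v.1) (y - v.2) ∧
      (∀ j < k, ∀ u ∈ C j, ¬ (s j u).mem (x - u.1) (y - u.2)) ∧
      L x y = (s k v).lab (x - v.1) (y - v.2)

namespace Bd

variable (D : Bd)

/-- the outline of the island of level `k` with centre `v` -/
def g (k : ℕ) (v : ℤ × ℤ) : Geo := (D.s k v).geo v

lemma mem_iff (k : ℕ) (v : ℤ × ℤ) (x y : ℤ) :
    (D.g k v).mem x y ↔ (D.s k v).mem (x - v.1) (y - v.2) := by
  unfold Geo.mem Shape.mem g Shape.geo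
  dsimp only
  constructor
  · rintro ⟨h1, h2, h3, h4⟩
    exact ⟨by omega, by omega, by omega, by omega⟩
  · rintro ⟨h1, h2, h3, h4⟩
    exact ⟨by omega, by omega, by omega, by omega⟩

/-- the site is a boundary site of the island -/
def bd (k : ℕ) (v : ℤ × ℤ) (x y : ℤ) : Prop := (D.g k v).mem x y ∧
  (x = (D.g k v).A ∨ x = (D.g k v).Z ∨ y = (D.g k v).LO x ∨ y = (D.g k v).HI x)

/-- the island is the innermost one containing the site -/
def Ow (k : ℕ) (v : ℤ × ℤ) (x y : ℤ) : Prop := v ∈ D.C k ∧ (D.g k v).mem x y ∧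
  ∀ j < k, ∀ u ∈ D.C j, ¬ (D.g j u).mem x y

lemma size {k : ℕ} {v : ℤ × ℤ} {x y : ℤ} (h : (D.g k v).mem x y) :
    -D.sz k ≤ x - v.1 ∧ x - v.1 ≤ D.sz k ∧ -D.sz k ≤ y - v.2 ∧ y - v.2 ≤ D.sz k := by
  rw [D.mem_iff] at h
  obtain ⟨h1, h2, h3, h4⟩ := h
  have a1 := (D.s k v).ba
  have a2 := (D.s k v).bb
  have a3 := (D.s k v).blo _ h1 h2
  have a4 := (D.s k v).bhi _ h1 h2
  omega

lemma farBd {k : ℕ} {v : ℤ × ℤ} {x y : ℤ} (h : D.bd k v x y) {j : ℕ} (hj : j < k) {u : ℤ × ℤ}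
    (hu : u ∈ D.C j) (b1 : -(D.sz j + 19) ≤ x - u.1) (b2 : x - u.1 ≤ D.sz j + 19)
    (b3 : -(D.sz j + 19) ≤ y - u.2) (b4 : y - u.2 ≤ D.sz j + 19) : False := by
  have hs := D.size h.1
  have h3 := D.h3 j k hj
  have hj1 := D.h1 j
  have hw : u - v ∈ D.W k v j := by
    apply D.hW k v j (u - v) hj
    · rw [sd_le_iff']
      simp only [Prod.fst_sub, Prod.snd_sub, Prod.fst_zero, Prod.snd_zero, sub_zero]
      omega
    · rwa [add_sub_cancel]
  have key : ∀ X Y : ℤ, X = x - v.1 → Y = y - v.2 →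
      ¬ (D.sz j + 20 ≤ sd (X, Y) (u - v)) := by
    rintro X Y rfl rfl hc
    have : sd (x - v.1, y - v.2) (u - v) ≤ D.sz j + 19 := by
      rw [sd_le_iff']
      simp only [Prod.fst_sub, Prod.snd_sub]
      omega
    omega
  obtain ⟨hm, hb⟩ := h
  have hm' := hm
  rw [D.mem_iff] at hm'
  obtain ⟨m1, m2, m3, m4⟩ := hm'
  rcases hb with hb | hb | hb | hb
  · have e : x - v.1 = (D.s k v).a := by
      have : x = (D.s k v).a + v.1 := hb
      omega
    rw [e] at m3 m4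
    exact key _ _ e.symm rfl ((D.s k v).ca j hj _ hw (y - v.2) m3 m4)
  · have e : x - v.1 = (D.s k v).b := by
      have : x = (D.s k v).b + v.1 := hb
      omega
    rw [e] at m3 m4
    exact key _ _ e.symm rfl ((D.s k v).cb j hj _ hw (y - v.2) m3 m4)
  · have e : y - v.2 = (D.s k v).lo (x - v.1) := by
      have : y = (D.s k v).lo (x - v.1) + v.2 := hb
      omega
    exact key _ _ rfl e.symm ((D.s k v).clo j hj _ hw (x - v.1) m1 m2)
  · have e : y - v.2 = (D.s k v).hi (x - v.1) := by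
      have : y = (D.s k v).hi (x - v.1) + v.2 := hb
      omega
    exact key _ _ rfl e.symm ((D.s k v).chi j hj _ hw (x - v.1) m1 m2)

/-- no smaller island near a boundary site -/
lemma noSmall {k : ℕ} {v : ℤ × ℤ} {x0 y0 : ℤ} (h : D.bd k v x0 y0) {x y : ℤ}
    (a1 : x0 - 19 ≤ x) (a2 : x ≤ x0 + 19) (a3 : y0 - 19 ≤ y) (a4 : y ≤ y0 + 19)
    {j : ℕ} (hj : j < k) {u : ℤ × ℤ} (hu : u ∈ D.C j) : ¬ (D.g j u).mem x y := by
  intro hm
  have hs := D.size hm
  exact D.farBd h hj hu (by omega) (by omega) (by omega) (by omega)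

lemma same_of_near {k : ℕ} {v v' : ℤ × ℤ} (hv : v ∈ D.C k) (hv' : v' ∈ D.C k) {x0 y0 x y : ℤ}
    (hm : (D.g k v).mem x0 y0) (hm' : (D.g k v').mem x y)
    (a1 : x0 - 19 ≤ x) (a2 : x ≤ x0 + 19) (a3 : y0 - 19 ≤ y) (a4 : y ≤ y0 + 19) : v = v' := by
  by_contra hne
  have h := D.hC k v hv v' hv' hne
  have s1 := D.size hm
  have s2 := D.size hm'
  have h1 := D.h1 k
  have h2 := D.h2 k
  have : sd v v' ≤ 2 * D.sz k + 19 := by
    rw [sd_le_iff']; omega
  omega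

lemma ow_of_near {k : ℕ} {v : ℤ × ℤ} (hv : v ∈ D.C k) {x0 y0 : ℤ} (h : D.bd k v x0 y0) {x y : ℤ}
    (a1 : x0 - 19 ≤ x) (a2 : x ≤ x0 + 19) (a3 : y0 - 19 ≤ y) (a4 : y ≤ y0 + 19)
    (hm : (D.g k v).mem x y) : D.Ow k v x y :=
  ⟨hv, hm, fun _ hj _ hu => D.noSmall h a1 a2 a3 a4 hj hu⟩

lemma lt_of_near {k : ℕ} {v : ℤ × ℤ} (hv : v ∈ D.C k) {x0 y0 : ℤ} (h : D.bd k v x0 y0) {x y : ℤ}
    (a1 : x0 - 19 ≤ x) (a2 : x ≤ x0 + 19) (a3 : y0 - 19 ≤ y) (a4 : y ≤ y0 + 19)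
    (hm : ¬ (D.g k v).mem x y) {k' : ℕ} {v' : ℤ × ℤ} (ho : D.Ow k' v' x y) : k < k' := by
  rcases lt_trichotomy k k' with hk | hk | hk
  · exact hk
  · subst hk
    have := D.same_of_near hv ho.1 h.1 ho.2.1 a1 a2 a3 a4
    subst this
    exact absurd ho.2.1 hm
  · exact absurd ho.2.1 (D.noSmall h a1 a2 a3 a4 hk ho.1)

lemma not_bd_of_near {k : ℕ} {v : ℤ × ℤ} (hv : v ∈ D.C k) {x0 y0 : ℤ} (h : D.bd k v x0 y0)
    {x y : ℤ} (a1 : x0 - 19 ≤ x) (a2 : x ≤ x0 + 19) (a3 : y0 - 19 ≤ y) (a4 : y ≤ y0 + 19)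
    (hm : ¬ (D.g k v).mem x y) {k' : ℕ} {v' : ℤ × ℤ} (ho : D.Ow k' v' x y) : ¬ D.bd k' v' x y := by
  intro hb
  have hk := D.lt_of_near hv h a1 a2 a3 a4 hm ho
  have hs := D.size h.1
  exact D.farBd hb hk hv (by omega) (by omega) (by omega) (by omega)

lemma exOw (x y : ℤ) : ∃ k v, D.Ow k v x y ∧ D.L x y = (D.s k v).lab (x - v.1) (y - v.2) := by
  obtain ⟨k, v, hv, hm, hn, hl⟩ := D.hown x y
  refine ⟨k, v, ⟨hv, (D.mem_iff k v x y).2 hm, ?_⟩, hl⟩
  intro j hj u hu hc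
  exact hn j hj u hu ((D.mem_iff j u x y).1 hc)

lemma ow_unique {k k' : ℕ} {v v' : ℤ × ℤ} {x y : ℤ} (h : D.Ow k v x y) (h' : D.Ow k' v' x y) :
    k = k' ∧ v = v' := by
  rcases lt_trichotomy k k' with hk | hk | hk
  · exact absurd h.2.1 (h'.2.2 k hk v h.1)
  · subst hk
    exact ⟨rfl, D.same_of_near h.1 h'.1 h.2.1 h'.2.1 (by omega) (by omega) (by omega) (by omega)⟩
  · exact absurd h'.2.1 (h.2.2 k' hk v' h'.1)

lemma lab_eq {k : ℕ} {v : ℤ × ℤ} {x y : ℤ} (h : D.Ow k v x y) :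
    D.L x y = (D.s k v).lab (x - v.1) (y - v.2) := by
  obtain ⟨k', v', h', hl⟩ := D.exOw x y
  obtain ⟨rfl, rfl⟩ := D.ow_unique h h'
  exact hl

section labels

variable {D} {k : ℕ} {v : ℤ × ℤ} {x y : ℤ}

lemma ow_B (h : D.Ow k v x y) : B D.L x y ↔ y = (D.g k v).LO x := by
  unfold B
  rw [D.lab_eq h]
  unfold Shape.lab g Shape.geo
  simp only [decide_eq_true_eq]
  constructor <;> intro h <;> omega

lemma ow_Lf (h : D.Ow k v x y) : Lf D.L x y ↔ y = (D.g k v).HI x ∧ x < (D.g k v).T := by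
  unfold Lf
  rw [D.lab_eq h]
  unfold Shape.lab g Shape.geo
  simp only [decide_eq_true_eq]
  constructor <;> rintro ⟨h1, h2⟩ <;> constructor <;> omega

lemma ow_Rt (h : D.Ow k v x y) : Rt D.L x y ↔ y = (D.g k v).HI x ∧ (D.g k v).T ≤ x := by
  unfold Rt
  rw [D.lab_eq h]
  unfold Shape.lab g Shape.geo
  simp only [decide_eq_true_eq]
  constructor <;> rintro ⟨h1, h2⟩ <;> constructor <;> omega

lemma ow_S (h : D.Ow k v x y) : S D.L x y ↔ x = (D.g k v).A := by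
  unfold S
  rw [D.lab_eq h]
  unfold Shape.lab g Shape.geo
  simp only [decide_eq_true_eq]
  constructor <;> intro h <;> omega

lemma ow_E (h : D.Ow k v x y) : E D.L x y ↔ x = (D.g k v).Z := by
  unfold E
  rw [D.lab_eq h]
  unfold Shape.lab g Shape.geo
  simp only [decide_eq_true_eq]
  constructor <;> intro h <;> omega

lemma ow_dvB (h : D.Ow k v x y) (hB : y = (D.g k v).LO x) (hx : x < (D.g k v).Z) :
    dv D.L x y = (D.g k v).LO (x + 1) - (D.g k v).LO x := by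
  have h5 := (D.g k v).lo1 x h.2.1.1 hx
  unfold dv
  rw [D.lab_eq h]
  unfold Shape.lab
  have e : y - v.2 = (D.s k v).lo (x - v.1) := by
    have : y = (D.s k v).lo (x - v.1) + v.2 := hB
    omega
  have e2 : (D.g k v).LO (x + 1) - (D.g k v).LO x =
      (D.s k v).lo (x - v.1 + 1) - (D.s k v).lo (x - v.1) := by
    show ((D.s k v).lo (x + 1 - v.1) + v.2) - ((D.s k v).lo (x - v.1) + v.2) = _
    rw [show x + 1 - v.1 = x - v.1 + 1 by ring]; ring
  simp only [e, if_true]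
  rw [Dr.v_of (by omega) (by omega)]
  exact e2.symm

lemma ow_dvT (h : D.Ow k v x y) (hT : y = (D.g k v).HI x) (hx : x < (D.g k v).Z) :
    dv D.L x y = (D.g k v).HI (x + 1) - (D.g k v).HI x := by
  have h5 := (D.g k v).hi1 h.2.1.1 hx
  have hgap := (D.g k v).gap x h.2.1.1 h.2.1.2.1
  unfold dv
  rw [D.lab_eq h]
  unfold Shape.lab
  have e : ¬ (y - v.2 = (D.s k v).lo (x - v.1)) := by
    intro hc
    have h6 : (D.g k v).LO x = (D.s k v).lo (x - v.1) + v.2 := rfl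
    omega
  have e2 : (D.g k v).HI (x + 1) - (D.g k v).HI x =
      (D.s k v).hi (x - v.1 + 1) - (D.s k v).hi (x - v.1) := by
    show ((D.s k v).hi (x + 1 - v.1) + v.2) - ((D.s k v).hi (x - v.1) + v.2) = _
    rw [show x + 1 - v.1 = x - v.1 + 1 by ring]; ring
  simp only [if_neg e]
  rw [Dr.v_of (by omega) (by omega)]
  exact e2.symm

lemma ow_col (h : D.Ow k v x y) : col D.L x y = ((x - v.1 + (y - v.2) : ℤ) : ZMod 2) := by
  unfold col
  rw [D.lab_eq h]
  rfl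

lemma ow_ht (h : D.Ow k v x y) : ht D.L x y = (((D.s k v).ph (x - v.1) (y - v.2) : ℤ) : ZMod 11) := by
  unfold ht
  rw [D.lab_eq h]
  rfl

lemma ow_bd (h : D.Ow k v x y) (hM : M D.L x y) : D.bd k v x y := by
  refine ⟨h.2.1, ?_⟩
  rcases hM with hB | hL | hR
  · rw [ow_B h] at hB; exact Or.inr (Or.inr (Or.inl hB))
  · rw [ow_Lf h] at hL; exact Or.inr (Or.inr (Or.inr hL.1))
  · rw [ow_Rt h] at hR; exact Or.inr (Or.inr (Or.inr hR.1))

end labels

/-- the local view at a boundary site -/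
lemma vw {k : ℕ} {v : ℤ × ℤ} (hv : v ∈ D.C k) {x0 y0 : ℤ} (h : D.bd k v x0 y0) :
    Vw (D.g k v) D.L x0 y0 := by
  have hin : ∀ x y, x0 - 19 ≤ x → x ≤ x0 + 19 → y0 - 19 ≤ y → y ≤ y0 + 19 →
      (D.g k v).mem x y → D.Ow k v x y := fun x y a1 a2 a3 a4 hm => D.ow_of_near hv h a1 a2 a3 a4 hm
  have hout : ∀ x y, x0 - 19 ≤ x → x ≤ x0 + 19 → y0 - 19 ≤ y → y ≤ y0 + 19 →
      ¬ (D.g k v).mem x y → ¬ M D.L x y := by
    intro x y a1 a2 a3 a4 hm hM
    obtain ⟨k', v', ho, _⟩ := D.exOw x y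
    exact D.not_bd_of_near hv h a1 a2 a3 a4 hm ho (ow_bd ho hM)
  have hLO : ∀ x, (D.g k v).A ≤ x → x ≤ (D.g k v).Z → (D.g k v).mem x ((D.g k v).LO x) := by
    intro x h1 h2
    exact Vw.memB ⟨h1, h2, rfl⟩
  have hHI : ∀ x, (D.g k v).A ≤ x → x ≤ (D.g k v).Z → (D.g k v).mem x ((D.g k v).HI x) := by
    intro x h1 h2
    exact Vw.memT ⟨h1, h2, rfl⟩
  refine ⟨?_, ?_, ?_, ?_, ?_, ?_, ?_⟩
  · intro x y a1 a2 a3 a4
    by_cases hm : (D.g k v).mem x y
    · rw [ow_B (hin x y a1 a2 a3 a4 hm)]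
      exact ⟨fun e => ⟨hm.1, hm.2.1, e⟩, fun e => e.2.2⟩
    · constructor
      · intro hB; exact absurd (Or.inl hB) (hout x y a1 a2 a3 a4 hm)
      · rintro ⟨e1, e2, rfl⟩; exact absurd (hLO x e1 e2) hm
  · intro x y a1 a2 a3 a4
    by_cases hm : (D.g k v).mem x y
    · rw [ow_Lf (hin x y a1 a2 a3 a4 hm)]
      exact ⟨fun e => ⟨hm.1, hm.2.1, e.1, e.2⟩, fun e => e.2.2⟩
    · constructor
      · intro hB; exact absurd (Or.inr (Or.inl hB)) (hout x y a1 a2 a3 a4 hm)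
      · rintro ⟨e1, e2, rfl, _⟩; exact absurd (hHI x e1 e2) hm
  · intro x y a1 a2 a3 a4
    by_cases hm : (D.g k v).mem x y
    · rw [ow_Rt (hin x y a1 a2 a3 a4 hm)]
      exact ⟨fun e => ⟨hm.1, hm.2.1, e.1, e.2⟩, fun e => e.2.2⟩
    · constructor
      · intro hB; exact absurd (Or.inr (Or.inr hB)) (hout x y a1 a2 a3 a4 hm)
      · rintro ⟨e1, e2, rfl, _⟩; exact absurd (hHI x e1 e2) hm
  · intro x y a1 a2 a3 a4 hm
    exact ow_S (hin x y a1 a2 a3 a4 hm)
  · intro x y a1 a2 a3 a4 hm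
    exact ow_E (hin x y a1 a2 a3 a4 hm)
  · intro x y a1 a2 a3 a4 hB hx
    by_cases hm : (D.g k v).mem x y
    · exact ow_dvB (hin x y a1 a2 a3 a4 hm) ((ow_B (hin x y a1 a2 a3 a4 hm)).1 hB) hx
    · exact absurd (Or.inl hB) (hout x y a1 a2 a3 a4 hm)
  · intro x y a1 a2 a3 a4 hT hx
    by_cases hm : (D.g k v).mem x y
    · have ho := hin x y a1 a2 a3 a4 hm
      refine ow_dvT ho ?_ hx
      rcases hT with hL | hR
      · exact ((ow_Lf ho).1 hL).1
      · exact ((ow_Rt ho).1 hR).1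
    · exact absurd (Or.inr hT) (hout x y a1 a2 a3 a4 hm)

/-- a marker has a local view -/
lemma vwM {x y : ℤ} (hM : M D.L x y) : ∃ k v, v ∈ D.C k ∧ D.Ow k v x y ∧ D.bd k v x y ∧
    Vw (D.g k v) D.L x y := by
  obtain ⟨k, v, ho, _⟩ := D.exOw x y
  have hb := ow_bd ho hM
  exact ⟨k, v, ho.1, ho, hb, D.vw ho.1 hb⟩

lemma hR_iff (x y : ℤ) : hR D.L x y ↔ ∃ k, ∃ v ∈ D.C k, (D.g k v).mem x y ∧
    ¬ (D.g k v).mem (x + 1) y := by
  constructor
  · rintro (⟨hB, hE, hd⟩ | ⟨hT, hE, hd⟩ | ⟨m, m0, m1, hB, hE⟩)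
    · obtain ⟨k, v, hv, ho, hb, V⟩ := D.vwM (Or.inl hB)
      obtain ⟨c1, c2, c3, c4, c5, c6, c7⟩ :=
        V.nextB (by omega) (by omega) (by omega) (by omega) hB hE
      refine ⟨k, v, hv, ho.2.1, ?_⟩
      rintro ⟨_, _, h3, _⟩; omega
    · obtain ⟨k, v, hv, ho, hb, V⟩ := D.vwM (Or.inr hT)
      obtain ⟨c1, c2, c3, c4, c5, c6, c7, _⟩ :=
        V.nextT (by omega) (by omega) (by omega) (by omega) hT hE
      refine ⟨k, v, hv, ho.2.1, ?_⟩
      rintro ⟨_, _, _, h4⟩; omega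
    · obtain ⟨k, v, hv, ho, hb, V⟩ := D.vwM (Or.inl hB)
      have h1 := (ow_B ho).1 hB
      have h2 := (ow_E ho).1 hE
      have h3 := (D.g k v).hen
      have h4 := (D.g k v).hat
      have h5 := (D.g k v).htb
      subst h2
      refine ⟨k, v, hv, ⟨by omega, by omega, by omega, by omega⟩, ?_⟩
      rintro ⟨_, _, _, _⟩; omega
  · rintro ⟨k, v, hv, hm, hn⟩
    have hm0 := hm
    obtain ⟨m1, m2, m3, m4⟩ := hm
    have h4 := (D.g k v).hat
    have h5 := (D.g k v).htb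
    rcases eq_or_lt_of_le m2 with hx | hx
    · have h3 := (D.g k v).hen
      have V := D.vw hv (x0 := x) (y0 := y) ⟨hm0, Or.inr (Or.inl hx)⟩
      subst hx
      refine Or.inr (Or.inr ⟨y - (D.g k v).LO (D.g k v).Z, by omega, by omega, ?_, ?_⟩)
      · rw [V.vB _ _ (by omega) (by omega) (by omega) (by omega)]
        exact ⟨by omega, by omega, by omega⟩
      · rw [V.vE _ _ (by omega) (by omega) (by omega) (by omega)
          (Vw.memB ⟨by omega, by omega, by omega⟩)]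
    · have s1 := (D.g k v).lo1 x m1 hx
      have s2 := (D.g k v).hi1 m1 hx
      have hn' : y < (D.g k v).LO (x + 1) ∨ (D.g k v).HI (x + 1) < y := by
        by_contra hcon
        push Not at hcon
        exact hn ⟨by omega, by omega, hcon.1, hcon.2⟩
      rcases hn' with hn' | hn'
      · have hy : y = (D.g k v).LO x := by omega
        have V := D.vw hv (x0 := x) (y0 := y) ⟨hm0, Or.inr (Or.inr (Or.inl hy))⟩
        have hB : B D.L x y := by
          rw [V.vB _ _ (by omega) (by omega) (by omega) (by omega)]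
          exact ⟨by omega, by omega, by omega⟩
        refine Or.inl ⟨hB, ?_, ?_⟩
        · rw [V.vE _ _ (by omega) (by omega) (by omega) (by omega) hm0]
          omega
        · rw [V.vdB _ _ (by omega) (by omega) (by omega) (by omega) hB hx]
          omega
      · have hy : y = (D.g k v).HI x := by omega
        have V := D.vw hv (x0 := x) (y0 := y) ⟨hm0, Or.inr (Or.inr (Or.inr hy))⟩
        have hT : T D.L x y := by
          rw [V.vT (by omega) (by omega) (by omega) (by omega)]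
          exact ⟨by omega, by omega, by omega⟩
        refine Or.inr (Or.inl ⟨hT, ?_, ?_⟩)
        · rw [V.vE _ _ (by omega) (by omega) (by omega) (by omega) hm0]
          omega
        · rw [V.vdT _ _ (by omega) (by omega) (by omega) (by omega) hT hx]
          omega

lemma hL_iff (x y : ℤ) : hL D.L x y ↔ ∃ k, ∃ v ∈ D.C k, (D.g k v).mem (x + 1) y ∧
    ¬ (D.g k v).mem x y := by
  constructor
  · rintro (⟨hB, hE, hd⟩ | ⟨hT, hE, hd⟩ | ⟨m, m0, m1, hB, hE⟩)
    · obtain ⟨k, v, hv, ho, hb, V⟩ := D.vwM (Or.inl hB)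
      obtain ⟨c1, c2, c3, c4, c5, c6, c7⟩ :=
        V.nextB (by omega) (by omega) (by omega) (by omega) hB hE
      have hg := (D.g k v).gap (x + 1) (by omega) (by omega)
      refine ⟨k, v, hv, ⟨by omega, by omega, by omega, by omega⟩, ?_⟩
      rintro ⟨_, _, h3, _⟩; omega
    · obtain ⟨k, v, hv, ho, hb, V⟩ := D.vwM (Or.inr hT)
      obtain ⟨c1, c2, c3, c4, c5, c6, c7, _⟩ :=
        V.nextT (by omega) (by omega) (by omega) (by omega) hT hE
      have hg := (D.g k v).gap (x + 1) (by omega) (by omega)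
      refine ⟨k, v, hv, ⟨by omega, by omega, by omega, by omega⟩, ?_⟩
      rintro ⟨_, _, _, h4⟩; omega
    · obtain ⟨k, v, hv, ho, hb, V⟩ := D.vwM (Or.inl hB)
      have h1 := (ow_B ho).1 hB
      have h2 := (ow_S ho).1 hE
      have h3 := (D.g k v).hst
      have h4 := (D.g k v).hat
      have h5 := (D.g k v).htb
      rw [h2] at h1
      refine ⟨k, v, hv, ?_, ?_⟩
      · rw [h2]
        exact ⟨by omega, by omega, by omega, by omega⟩
      · rintro ⟨_, _, _, _⟩; omega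
  · rintro ⟨k, v, hv, hm, hn⟩
    have hm0 := hm
    obtain ⟨m1, m2, m3, m4⟩ := hm
    have h4 := (D.g k v).hat
    have h5 := (D.g k v).htb
    rcases eq_or_lt_of_le m1 with hx | hx
    · have h3 := (D.g k v).hst
      have V := D.vw hv (x0 := x + 1) (y0 := y) ⟨hm0, Or.inl hx.symm⟩
      rw [← hx] at m3 m4
      have hB : (D.g k v).A ≤ x + 1 ∧ x + 1 ≤ (D.g k v).Z ∧
          y - (y - (D.g k v).LO (D.g k v).A) = (D.g k v).LO (x + 1) := by
        rw [← hx]
        exact ⟨by omega, by omega, by omega⟩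
      refine Or.inr (Or.inr ⟨y - (D.g k v).LO (D.g k v).A, by omega, by omega, ?_, ?_⟩)
      · rw [V.vB _ _ (by omega) (by omega) (by omega) (by omega)]
        exact hB
      · rw [V.vS _ _ (by omega) (by omega) (by omega) (by omega) (Vw.memB hB)]
        exact hx.symm
    · have s1 := (D.g k v).lo1 x (by omega) (by omega)
      have s2 := (D.g k v).hi1 (i := x) (by omega) (by omega)
      have hn' : y < (D.g k v).LO x ∨ (D.g k v).HI x < y := by
        by_contra hcon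
        push Not at hcon
        exact hn ⟨by omega, by omega, hcon.1, hcon.2⟩
      rcases hn' with hn' | hn'
      · have hy : y = (D.g k v).LO (x + 1) := by omega
        have V := D.vw hv (x0 := x + 1) (y0 := y) ⟨hm0, Or.inr (Or.inr (Or.inl hy))⟩
        have hB0 : (D.g k v).A ≤ x ∧ x ≤ (D.g k v).Z ∧ y + 1 = (D.g k v).LO x :=
          ⟨by omega, by omega, by omega⟩
        have hB : B D.L x (y + 1) := by
          rw [V.vB _ _ (by omega) (by omega) (by omega) (by omega)]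
          exact hB0
        refine Or.inl ⟨hB, ?_, ?_⟩
        · rw [V.vE _ _ (by omega) (by omega) (by omega) (by omega) (Vw.memB hB0)]
          omega
        · rw [V.vdB _ _ (by omega) (by omega) (by omega) (by omega) hB (by omega)]
          omega
      · have hy : y = (D.g k v).HI (x + 1) := by omega
        have V := D.vw hv (x0 := x + 1) (y0 := y) ⟨hm0, Or.inr (Or.inr (Or.inr hy))⟩
        have hT0 : (D.g k v).A ≤ x ∧ x ≤ (D.g k v).Z ∧ y - 1 = (D.g k v).HI x :=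
          ⟨by omega, by omega, by omega⟩
        have hT : T D.L x (y - 1) := by
          rw [V.vT (by omega) (by omega) (by omega) (by omega)]
          exact hT0
        refine Or.inr (Or.inl ⟨hT, ?_, ?_⟩)
        · rw [V.vE _ _ (by omega) (by omega) (by omega) (by omega) (Vw.memT hT0)]
          omega
        · rw [V.vdT _ _ (by omega) (by omega) (by omega) (by omega) hT (by omega)]
          omega

lemma vU_iff (x y : ℤ) : vU D.L x y ↔ ∃ k, ∃ v ∈ D.C k, (D.g k v).mem x y ∧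
    ¬ (D.g k v).mem x (y + 1) := by
  constructor
  · intro hT
    obtain ⟨k, v, hv, ho, hb, V⟩ := D.vwM (Or.inr hT)
    have h1 := (V.vT (by omega) (by omega) (by omega) (by omega)).1 hT
    refine ⟨k, v, hv, ho.2.1, ?_⟩
    rintro ⟨_, _, _, h4⟩; omega
  · rintro ⟨k, v, hv, hm, hn⟩
    have hm0 := hm
    obtain ⟨m1, m2, m3, m4⟩ := hm
    have hy : y = (D.g k v).HI x := by
      by_contra hcon
      exact hn ⟨m1, m2, by omega, by omega⟩
    have V := D.vw hv (x0 := x) (y0 := y) ⟨hm0, Or.inr (Or.inr (Or.inr hy))⟩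
    unfold vU
    rw [V.vT (by omega) (by omega) (by omega) (by omega)]
    exact ⟨m1, m2, hy⟩

lemma vD_iff (x y : ℤ) : vD D.L x y ↔ ∃ k, ∃ v ∈ D.C k, (D.g k v).mem x (y + 1) ∧
    ¬ (D.g k v).mem x y := by
  constructor
  · intro hB
    obtain ⟨k, v, hv, ho, hb, V⟩ := D.vwM (Or.inl hB)
    have h1 := (ow_B ho).1 hB
    refine ⟨k, v, hv, ho.2.1, ?_⟩
    rintro ⟨_, _, h3, _⟩; omega
  · rintro ⟨k, v, hv, hm, hn⟩
    have hm0 := hm
    obtain ⟨m1, m2, m3, m4⟩ := hm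
    have hy : y + 1 = (D.g k v).LO x := by
      by_contra hcon
      exact hn ⟨m1, m2, by omega, by omega⟩
    have V := D.vw hv (x0 := x) (y0 := y + 1) ⟨hm0, Or.inr (Or.inr (Or.inl hy))⟩
    unfold vD
    rw [V.vB _ _ (by omega) (by omega) (by omega) (by omega)]
    exact ⟨m1, m2, hy⟩

/-- the two sites lie in the same islands -/
def Sm (x y x' y' : ℤ) : Prop := ∀ k, ∀ v ∈ D.C k, ((D.g k v).mem x y ↔ (D.g k v).mem x' y')

variable {D}

lemma Sm.symm {x y x' y' : ℤ} (h : D.Sm x y x' y') : D.Sm x' y' x y :=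
  fun k v hv => (h k v hv).symm

lemma Sm_H {x y : ℤ} (h : ¬ hc D.L x y) : D.Sm x y (x + 1) y := by
  intro k v hv
  constructor
  · intro hm
    by_contra hn
    exact h (Or.inl ((D.hR_iff x y).2 ⟨k, v, hv, hm, hn⟩))
  · intro hm
    by_contra hn
    exact h (Or.inr ((D.hL_iff x y).2 ⟨k, v, hv, hm, hn⟩))

lemma Sm_V {x y : ℤ} (h : ¬ vc D.L x y) : D.Sm x y x (y + 1) := by
  intro k v hv
  constructor
  · intro hm
    by_contra hn
    exact h (Or.inl ((D.vU_iff x y).2 ⟨k, v, hv, hm, hn⟩))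
  · intro hm
    by_contra hn
    exact h (Or.inr ((D.vD_iff x y).2 ⟨k, v, hv, hm, hn⟩))

lemma ow_of_Sm {x y x' y' : ℤ} (h : D.Sm x y x' y') {k : ℕ} {v : ℤ × ℤ} (ho : D.Ow k v x y) :
    D.Ow k v x' y' :=
  ⟨ho.1, (h k v ho.1).1 ho.2.1, fun j hj u hu hm => ho.2.2 j hj u hu ((h j u hu).2 hm)⟩

lemma sm_of {e : ℤ} (h : |e| ≤ 2) : sm ((e : ℤ) : ZMod 11) := by
  rw [abs_le] at h
  have : e = 0 ∨ e = 1 ∨ e = 2 ∨ e = -1 ∨ e = -2 := by omega
  rcases this with rfl | rfl | rfl | rfl | rfl <;> simp [sm]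

lemma bd_of_exit {k : ℕ} {v : ℤ × ℤ} {x y x' y' : ℤ} (hm : (D.g k v).mem x y)
    (hn : ¬ (D.g k v).mem x' y')
    (h : (x' = x + 1 ∧ y' = y) ∨ (x' = x - 1 ∧ y' = y) ∨ (x' = x ∧ y' = y + 1) ∨
      (x' = x ∧ y' = y - 1)) : D.bd k v x y := by
  refine ⟨hm, ?_⟩
  by_contra hcon
  push Not at hcon
  obtain ⟨n1, n2, n3, n4⟩ := hcon
  obtain ⟨m1, m2, m3, m4⟩ := hm
  have s1 := (D.g k v).lo1 x m1 (by omega)
  have s2 := (D.g k v).hi1 (i := x) m1 (by omega)
  have s3 := (D.g k v).lo1 (x - 1) (by omega) (by omega)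
  have s4 := (D.g k v).hi1 (i := x - 1) (by omega) (by omega)
  rw [sub_add_cancel] at s3 s4
  apply hn
  rcases h with ⟨rfl, rfl⟩ | ⟨rfl, rfl⟩ | ⟨rfl, rfl⟩ | ⟨rfl, rfl⟩
  · exact ⟨by omega, by omega, by omega, by omega⟩
  · exact ⟨by omega, by omega, by omega, by omega⟩
  · exact ⟨by omega, by omega, by omega, by omega⟩
  · exact ⟨by omega, by omega, by omega, by omega⟩

/-- heights are constant around an island -/
lemma outside {k : ℕ} {v : ℤ × ℤ} (hv : v ∈ D.C k) {x0 y0 x y x' y' : ℤ}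
    (hm : (D.g k v).mem x0 y0) (hn : ¬ (D.g k v).mem x y)
    (h : (x = x0 + 1 ∧ y = y0) ∨ (x = x0 - 1 ∧ y = y0) ∨ (x = x0 ∧ y = y0 + 1) ∨
      (x = x0 ∧ y = y0 - 1))
    (a1 : x - 1 ≤ x') (a2 : x' ≤ x + 1) (a3 : y - 1 ≤ y') (a4 : y' ≤ y + 1)
    (hS : D.Sm x y x' y') : ht D.L x' y' = ht D.L x y := by
  have hb := bd_of_exit hm hn h
  obtain ⟨k', v', ho, _⟩ := D.exOw x y
  have hk := D.lt_of_near hv hb (x := x) (y := y) (by omega) (by omega) (by omega) (by omega)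
    hn ho
  have ho' := ow_of_Sm hS ho
  rw [ow_ht ho, ow_ht ho']
  have h3 := D.h3 k k' hk
  have s1 := D.size hm
  have s2 := D.size ho.2.1
  have s3 := D.h1 k
  have hw : v - v' ∈ D.W k' v' k := by
    apply D.hW k' v' k (v - v') hk
    · rw [sd_le_iff']
      simp only [Prod.fst_sub, Prod.snd_sub, Prod.fst_zero, Prod.snd_zero, sub_zero]
      omega
    · rw [add_sub_cancel]; exact hv
  congr 1
  refine (D.s k' v').phc k hk (v - v') hw (x' - v'.1, y' - v'.2) (x - v'.1, y - v'.2) ?_ ?_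
  · rw [sd_le_iff']
    simp only [Prod.fst_sub, Prod.snd_sub]
    omega
  · rw [sd_le_iff']
    simp only [Prod.fst_sub, Prod.snd_sub]
    omega

lemma LO_def (k : ℕ) (v : ℤ × ℤ) (x : ℤ) :
    (D.g k v).LO x - v.2 = (D.s k v).lo (x - v.1) := by
  show (D.s k v).lo (x - v.1) + v.2 - v.2 = _
  ring

lemma HI_def (k : ℕ) (v : ℤ × ℤ) (x : ℤ) :
    (D.g k v).HI x - v.2 = (D.s k v).hi (x - v.1) := by
  show (D.s k v).hi (x - v.1) + v.2 - v.2 = _
  ring

lemma A_def (k : ℕ) (v : ℤ × ℤ) : (D.g k v).A = (D.s k v).a + v.1 := rfl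
lemma Z_def (k : ℕ) (v : ℤ × ℤ) : (D.g k v).Z = (D.s k v).b + v.1 := rfl

/-- heights on the boundary -/
lemma ht_LO {k : ℕ} {v : ℤ × ℤ} {x y : ℤ} (ho : D.Ow k v x y) (h : y = (D.g k v).LO x) :
    ht D.L x y = ((x - (D.g k v).A : ℤ) : ZMod 11) := by
  rw [ow_ht ho, h, LO_def]
  have h1 := ho.2.1.1
  have h2 := ho.2.1.2.1
  rw [A_def] at h1
  rw [Z_def] at h2
  rw [(D.s k v).phlo (x - v.1) (by omega) (by omega), A_def]
  congr 1; ring

lemma ht_HI {k : ℕ} {v : ℤ × ℤ} {x y : ℤ} (ho : D.Ow k v x y) (h : y = (D.g k v).HI x) :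
    ht D.L x y = ((x - (D.g k v).A : ℤ) : ZMod 11) := by
  rw [ow_ht ho, h, HI_def]
  have h1 := ho.2.1.1
  have h2 := ho.2.1.2.1
  rw [A_def] at h1
  rw [Z_def] at h2
  rw [(D.s k v).phhi (x - v.1) (by omega) (by omega), A_def]
  congr 1; ring

lemma ht_A {k : ℕ} {v : ℤ × ℤ} {x y : ℤ} (ho : D.Ow k v x y) (h : x = (D.g k v).A) :
    ht D.L x y = 0 := by
  have h1 := (D.mem_iff k v x y).1 ho.2.1
  obtain ⟨_, _, h3, h4⟩ := h1
  have e : x - v.1 = (D.s k v).a := by rw [h, A_def]; ring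
  rw [e] at h3 h4
  rw [ow_ht ho, e, (D.s k v).pha _ h3 h4]
  simp

lemma ht_Z {k : ℕ} {v : ℤ × ℤ} {x y : ℤ} (ho : D.Ow k v x y) (h : x = (D.g k v).Z) :
    ht D.L x y = (((D.s k v).b - (D.s k v).a : ℤ) : ZMod 11) := by
  have h1 := (D.mem_iff k v x y).1 ho.2.1
  obtain ⟨_, _, h3, h4⟩ := h1
  have e : x - v.1 = (D.s k v).b := by rw [h, Z_def]; ring
  rw [e] at h3 h4
  rw [ow_ht ho, e, (D.s k v).phb _ h3 h4]

variable (D)

theorem rules (x y : ℤ) : Rl D.L x y where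
  bl := fun h => by
    obtain ⟨k, v, hv, ho, hb, V⟩ := D.vwM (Or.inl h)
    exact V.r_bl h
  br := fun h => by
    obtain ⟨k, v, hv, ho, hb, V⟩ := D.vwM (Or.inl h)
    exact V.r_br h
  lr := fun h => by
    obtain ⟨k, v, hv, ho, hb, V⟩ := D.vwM (Or.inr (Or.inl h))
    exact V.r_lr h
  nM := fun h => by
    obtain ⟨k, v, hv, ho, hb, V⟩ := D.vwM h
    exact V.r_nM h
  nS := fun h => by
    obtain ⟨k, v, hv, ho, hb, V⟩ := D.vwM h
    exact V.r_nS h
  nB := fun h => by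
    obtain ⟨k, v, hv, ho, hb, V⟩ := D.vwM (Or.inl h)
    exact V.r_nB h
  nL := fun h => by
    obtain ⟨k, v, hv, ho, hb, V⟩ := D.vwM (Or.inr (Or.inl h))
    exact V.r_nT (Or.inl h)
  nR := fun h => by
    obtain ⟨k, v, hv, ho, hb, V⟩ := D.vwM (Or.inr (Or.inr h))
    exact V.r_nR h
  pv := fun h => by
    obtain ⟨k, v, hv, ho, hb, V⟩ := D.vwM h
    exact V.r_pv h
  sp := fun h => by
    obtain ⟨k, v, hv, ho, hb, V⟩ := D.vwM h
    exact V.r_sp h
  sB := fun h => by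
    obtain ⟨k, v, hv, ho, hb, V⟩ := D.vwM (Or.inl h)
    exact V.r_sB h
  sT := fun h => by
    obtain ⟨k, v, hv, ho, hb, V⟩ := D.vwM (Or.inr h)
    exact V.r_sT h
  eB := fun h => by
    obtain ⟨k, v, hv, ho, hb, V⟩ := D.vwM (Or.inl h)
    exact V.r_eB h
  eT := fun h => by
    obtain ⟨k, v, hv, ho, hb, V⟩ := D.vwM (Or.inr h)
    exact V.r_eT h
  es := fun h => by
    obtain ⟨k, v, hv, ho, hb, V⟩ := D.vwM (Or.inl h)
    exact V.r_es h
  slB := fun h => by
    obtain ⟨k, v, hv, ho, hb, V⟩ := D.vwM (Or.inl h)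
    exact V.r_slB h
  slL := fun h => by
    obtain ⟨k, v, hv, ho, hb, V⟩ := D.vwM (Or.inr (Or.inl h))
    exact V.r_slL h
  slL3 := fun h => by
    obtain ⟨k, v, hv, ho, hb, V⟩ := D.vwM (Or.inr (Or.inl h))
    exact V.r_slL3 h
  slR := fun h => by
    obtain ⟨k, v, hv, ho, hb, V⟩ := D.vwM (Or.inr (Or.inr h))
    exact V.r_slR h
  slR3 := fun h => by
    obtain ⟨k, v, hv, ho, hb, V⟩ := D.vwM (Or.inr (Or.inr h))
    exact V.r_slR3 h
  cH := fun h => by
    obtain ⟨k, v, ho, _⟩ := D.exOw x y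
    have ho' := ow_of_Sm (Sm_H h) ho
    rw [ow_col ho, ow_col ho']
    push_cast; ring
  cV := fun h => by
    obtain ⟨k, v, ho, _⟩ := D.exOw x y
    have ho' := ow_of_Sm (Sm_V h) ho
    rw [ow_col ho, ow_col ho']
    push_cast; ring
  fH := fun h => by
    obtain ⟨k, v, ho, _⟩ := D.exOw x y
    have ho' := ow_of_Sm (Sm_H h) ho
    rw [ow_ht ho, ow_ht ho', ← Int.cast_sub, show x + 1 - v.1 = x - v.1 + 1 by ring]
    exact sm_of ((D.s k v).phH _ _)
  fV := fun h => by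
    obtain ⟨k, v, ho, _⟩ := D.exOw x y
    have ho' := ow_of_Sm (Sm_V h) ho
    rw [ow_ht ho, ow_ht ho', ← Int.cast_sub, show y + 1 - v.2 = y - v.2 + 1 by ring]
    exact sm_of ((D.s k v).phV _ _)
  fN := fun h hE => by
    obtain ⟨k, v, hv, ho, hb, V⟩ := D.vwM h
    rcases h with h | h
    · obtain ⟨c1, c2, c3, c4, c5, c6, c7⟩ :=
        V.nextB (by omega) (by omega) (by omega) (by omega) h hE
      have ho' := D.ow_of_near hv hb (x := x + 1) (y := y + dv D.L x y) (by omega) (by omega)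
        (by omega) (by omega) (Vw.memB ⟨by omega, by omega, c4⟩)
      rw [ht_LO ho c3, ht_LO ho' c4]
      push_cast; ring
    · obtain ⟨c1, c2, c3, c4, c5, c6, c7, _⟩ :=
        V.nextT (by omega) (by omega) (by omega) (by omega) h hE
      have ho' := D.ow_of_near hv hb (x := x + 1) (y := y + dv D.L x y) (by omega) (by omega)
        (by omega) (by omega) (Vw.memT ⟨by omega, by omega, c4⟩)
      rw [ht_HI ho c3, ht_HI ho' c4]
      push_cast; ring
  fE := fun h hSE m m0 m1 => by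
    obtain ⟨k, v, hv, ho, hb, V⟩ := D.vwM (Or.inl h)
    have h1 := (ow_B ho).1 h
    have e0 := (D.g k v).hst
    have e1 := (D.g k v).hen
    have e2 := (D.g k v).hat
    have e3 := (D.g k v).htb
    rcases hSE with hS | hE
    · have h2 := (ow_S ho).1 hS
      have hm : (D.g k v).mem x (y + m) := by
        rw [h2] at h1 ⊢
        exact ⟨by omega, by omega, by omega, by omega⟩
      have ho' := D.ow_of_near hv hb (x := x) (y := y + m) (by omega) (by omega)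
        (by omega) (by omega) hm
      rw [ht_A ho h2, ht_A ho' h2]
    · have h2 := (ow_E ho).1 hE
      have hm : (D.g k v).mem x (y + m) := by
        rw [h2] at h1 ⊢
        exact ⟨by omega, by omega, by omega, by omega⟩
      have ho' := D.ow_of_near hv hb (x := x) (y := y + m) (by omega) (by omega)
        (by omega) (by omega) hm
      rw [ht_Z ho h2, ht_Z ho' h2]
  oR1 := fun h hn => by
    obtain ⟨k, v, hv, hm, hm'⟩ := (D.hR_iff x y).1 h
    exact outside hv hm hm' (Or.inl ⟨rfl, rfl⟩) (by omega) (by omega) (by omega) (by omega)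
      (Sm_V hn)
  oR2 := fun h hn => by
    obtain ⟨k, v, hv, hm, hm'⟩ := (D.hR_iff x y).1 h
    have hS := (Sm_V hn).symm
    rw [sub_add_cancel] at hS
    exact outside hv hm hm' (Or.inl ⟨rfl, rfl⟩) (by omega) (by omega) (by omega) (by omega) hS
  oL1 := fun h hn => by
    obtain ⟨k, v, hv, hm, hm'⟩ := (D.hL_iff x y).1 h
    exact outside hv hm hm' (Or.inr (Or.inl ⟨by ring, rfl⟩)) (by omega) (by omega) (by omega)
      (by omega) (Sm_V hn)
  oL2 := fun h hn => by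
    obtain ⟨k, v, hv, hm, hm'⟩ := (D.hL_iff x y).1 h
    have hS := (Sm_V hn).symm
    rw [sub_add_cancel] at hS
    exact outside hv hm hm' (Or.inr (Or.inl ⟨by ring, rfl⟩)) (by omega) (by omega) (by omega)
      (by omega) hS
  oU1 := fun h hn => by
    obtain ⟨k, v, hv, hm, hm'⟩ := (D.vU_iff x y).1 h
    exact outside hv hm hm' (Or.inr (Or.inr (Or.inl ⟨rfl, rfl⟩))) (by omega) (by omega) (by omega)
      (by omega) (Sm_H hn)
  oU2 := fun h hn => by
    obtain ⟨k, v, hv, hm, hm'⟩ := (D.vU_iff x y).1 h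
    have hS := (Sm_H hn).symm
    rw [sub_add_cancel] at hS
    exact outside hv hm hm' (Or.inr (Or.inr (Or.inl ⟨rfl, rfl⟩))) (by omega) (by omega) (by omega)
      (by omega) hS
  oD1 := fun h hn => by
    obtain ⟨k, v, hv, hm, hm'⟩ := (D.vD_iff x y).1 h
    exact outside hv hm hm' (Or.inr (Or.inr (Or.inr ⟨rfl, by ring⟩))) (by omega) (by omega)
      (by omega) (by omega) (Sm_H hn)
  oD2 := fun h hn => by
    obtain ⟨k, v, hv, hm, hm'⟩ := (D.vD_iff x y).1 h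
    have hS := (Sm_H hn).symm
    rw [sub_add_cancel] at hS
    exact outside hv hm hm' (Or.inr (Or.inr (Or.inr ⟨rfl, by ring⟩))) (by omega) (by omega)
      (by omega) (by omega) hS

end Bd

/-- **A labelling glued from shapes satisfies the rules.** -/
theorem build : BuildStmt := by
  intro sz rr h1 h2 h3 C hC W hW s L hL x y
  exact Bd.rules ⟨sz, rr, h1, h2, h3, C, hC, W, hW, s, L, hL⟩ x y

/-- **The Baire side.**  Every free Borel action of `ℤ²` on a Polish space has a Baire measurable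
labelling satisfying the rules at every site of every point. -/
theorem baire_side {X : Type*} [TopologicalSpace X] [PolishSpace X]
    [MeasurableSpace X] [BorelSpace X] [AddAction (ℤ × ℤ) X]
    (hact : ∀ g : ℤ × ℤ, Measurable (fun x : X => g +ᵥ x))
    (hfree : ∀ g : ℤ × ℤ, ∀ x : X, g +ᵥ x = x → g = 0) :
    ∃ F : X → Lab, (∀ A : Set Lab, BaireMeasurableSet (F ⁻¹' A)) ∧
      ∀ x : X, ∀ i j : ℤ, Rl (fun m n => F ((m, n) +ᵥ x)) i j :=
  baire_side_of_build build hact hfree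

end LCLZ
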