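import Pool.Agent.helper13.LCL.Shape

/-!
# Local view of one island, and the rules for markers
-/

namespace LCLZ

/-- the outline of an island in absolute coordinates -/
structure Geo where
  A : ℤ
  T : ℤ
  Z : ℤ
  LO : ℤ → ℤ
  HI : ℤ → ℤ
  hat : A + 20 ≤ T
  htb : T + 20 ≤ Z
  hst : HI A = LO A + 10
  hen : HI Z = LO Z + 10
  lo1 : ∀ i, A ≤ i → i < Z → -1 ≤ LO (i + 1) - LO i ∧ LO (i + 1) - LO i ≤ 1
  lo2 : ∀ i, A ≤ i → i + 1 < Z → -1 ≤ LO (i + 2) - LO i ∧ LO (i + 2) - LO i ≤ 1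
  hL1 : ∀ i, A ≤ i → i < T → HI i ≤ HI (i + 1) ∧ HI (i + 1) ≤ HI i + 1
  hL3 : ∀ i, A ≤ i → i + 3 ≤ T → HI i + 2 ≤ HI (i + 3)
  hR1 : ∀ i, T ≤ i → i < Z → HI i - 1 ≤ HI (i + 1) ∧ HI (i + 1) ≤ HI i
  hR3 : ∀ i, T ≤ i → i + 3 ≤ Z → HI (i + 3) ≤ HI i - 2
  gap : ∀ i, A ≤ i → i ≤ Z → LO i + 5 ≤ HI i

namespace Geo

/-- the points of the island -/
def mem (g : Geo) (x y : ℤ) : Prop := g.A ≤ x ∧ x ≤ g.Z ∧ g.LO x ≤ y ∧ y ≤ g.HI x

lemma hi1 (g : Geo) {i : ℤ} (h1 : g.A ≤ i) (h2 : i < g.Z) :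
    -1 ≤ g.HI (i + 1) - g.HI i ∧ g.HI (i + 1) - g.HI i ≤ 1 := by
  rcases lt_or_ge i g.T with h | h
  · have := g.hL1 i h1 h; omega
  · have := g.hR1 i h h2; omega

end Geo

/-- near `(x0,y0)` the markers of `L` are those of the island `g` -/
structure Vw (g : Geo) (L : Cfg) (x0 y0 : ℤ) : Prop where
  vB : ∀ x y, x0 - 19 ≤ x → x ≤ x0 + 19 → y0 - 19 ≤ y → y ≤ y0 + 19 →
    (B L x y ↔ g.A ≤ x ∧ x ≤ g.Z ∧ y = g.LO x)
  vL : ∀ x y, x0 - 19 ≤ x → x ≤ x0 + 19 → y0 - 19 ≤ y → y ≤ y0 + 19 →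
    (Lf L x y ↔ g.A ≤ x ∧ x ≤ g.Z ∧ y = g.HI x ∧ x < g.T)
  vR : ∀ x y, x0 - 19 ≤ x → x ≤ x0 + 19 → y0 - 19 ≤ y → y ≤ y0 + 19 →
    (Rt L x y ↔ g.A ≤ x ∧ x ≤ g.Z ∧ y = g.HI x ∧ g.T ≤ x)
  vS : ∀ x y, x0 - 19 ≤ x → x ≤ x0 + 19 → y0 - 19 ≤ y → y ≤ y0 + 19 → g.mem x y →
    (S L x y ↔ x = g.A)
  vE : ∀ x y, x0 - 19 ≤ x → x ≤ x0 + 19 → y0 - 19 ≤ y → y ≤ y0 + 19 → g.mem x y →
    (E L x y ↔ x = g.Z)
  vdB : ∀ x y, x0 - 19 ≤ x → x ≤ x0 + 19 → y0 - 19 ≤ y → y ≤ y0 + 19 → B L x y → x < g.Z →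
    dv L x y = g.LO (x + 1) - g.LO x
  vdT : ∀ x y, x0 - 19 ≤ x → x ≤ x0 + 19 → y0 - 19 ≤ y → y ≤ y0 + 19 → T L x y → x < g.Z →
    dv L x y = g.HI (x + 1) - g.HI x

namespace Vw

variable {g : Geo} {L : Cfg} {x0 y0 : ℤ}

lemma vT (V : Vw g L x0 y0) {x y : ℤ} (a1 : x0 - 19 ≤ x) (a2 : x ≤ x0 + 19) (a3 : y0 - 19 ≤ y)
    (a4 : y ≤ y0 + 19) : T L x y ↔ g.A ≤ x ∧ x ≤ g.Z ∧ y = g.HI x := by
  unfold T
  rw [V.vL x y a1 a2 a3 a4, V.vR x y a1 a2 a3 a4]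
  constructor
  · rintro (⟨h1, h2, h3, _⟩ | ⟨h1, h2, h3, _⟩) <;> exact ⟨h1, h2, h3⟩
  · rintro ⟨h1, h2, h3⟩
    rcases lt_or_ge x g.T with h | h
    · exact Or.inl ⟨h1, h2, h3, h⟩
    · exact Or.inr ⟨h1, h2, h3, h⟩

lemma memB {x y : ℤ} (h : g.A ≤ x ∧ x ≤ g.Z ∧ y = g.LO x) : g.mem x y := by
  have := g.gap x h.1 h.2.1
  exact ⟨h.1, h.2.1, by omega, by omega⟩

lemma memT {x y : ℤ} (h : g.A ≤ x ∧ x ≤ g.Z ∧ y = g.HI x) : g.mem x y := by
  have := g.gap x h.1 h.2.1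
  exact ⟨h.1, h.2.1, by omega, by omega⟩

/-- following the base -/
lemma nextB (V : Vw g L x0 y0) {x y : ℤ} (a1 : x0 - 18 ≤ x) (a2 : x ≤ x0 + 18) (a3 : y0 - 18 ≤ y)
    (a4 : y ≤ y0 + 18) (h : B L x y) (hE : ¬ E L x y) :
    g.A ≤ x ∧ x < g.Z ∧ y = g.LO x ∧ y + dv L x y = g.LO (x + 1) ∧ -1 ≤ dv L x y ∧
      dv L x y ≤ 1 ∧ B L (x + 1) (y + dv L x y) := by
  have h1 := (V.vB x y (by omega) (by omega) (by omega) (by omega)).1 h
  have h2 : x ≠ g.Z := fun e => hE ((V.vE x y (by omega) (by omega) (by omega) (by omega)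
    (memB h1)).2 e)
  have h3 : x < g.Z := lt_of_le_of_ne h1.2.1 h2
  have h4 := V.vdB x y (by omega) (by omega) (by omega) (by omega) h h3
  have h5 := g.lo1 x h1.1 h3
  have h6 : y + dv L x y = g.LO (x + 1) := by omega
  refine ⟨h1.1, h3, h1.2.2, h6, by omega, by omega, ?_⟩
  rw [V.vB (x + 1) (y + dv L x y) (by omega) (by omega) (by omega) (by omega)]
  exact ⟨by omega, by omega, h6⟩

/-- following the roof -/
lemma nextT (V : Vw g L x0 y0) {x y : ℤ} (a1 : x0 - 18 ≤ x) (a2 : x ≤ x0 + 18) (a3 : y0 - 18 ≤ y)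
    (a4 : y ≤ y0 + 18) (h : T L x y) (hE : ¬ E L x y) :
    g.A ≤ x ∧ x < g.Z ∧ y = g.HI x ∧ y + dv L x y = g.HI (x + 1) ∧ -1 ≤ dv L x y ∧
      dv L x y ≤ 1 ∧ T L (x + 1) (y + dv L x y) ∧
      (g.T ≤ x + 1 → Rt L (x + 1) (y + dv L x y)) := by
  have h1 := (V.vT (by omega) (by omega) (by omega) (by omega)).1 h
  have h2 : x ≠ g.Z := fun e => hE ((V.vE x y (by omega) (by omega) (by omega) (by omega)
    (memT h1)).2 e)
  have h3 : x < g.Z := lt_of_le_of_ne h1.2.1 h2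
  have h4 := V.vdT x y (by omega) (by omega) (by omega) (by omega) h h3
  have h5 := g.hi1 h1.1 h3
  have h6 : y + dv L x y = g.HI (x + 1) := by omega
  refine ⟨h1.1, h3, h1.2.2, h6, by omega, by omega, ?_, ?_⟩
  · rw [V.vT (by omega) (by omega) (by omega) (by omega)]
    exact ⟨by omega, by omega, h6⟩
  · intro h7
    rw [V.vR (x + 1) (y + dv L x y) (by omega) (by omega) (by omega) (by omega)]
    exact ⟨by omega, by omega, h6, h7⟩

lemma T_of_Lf {x y : ℤ} (h : Lf L x y) : T L x y := Or.inl h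
lemma T_of_Rt {x y : ℤ} (h : Rt L x y) : T L x y := Or.inr h

variable (V : Vw g L x0 y0)
include V

lemma r_bl : B L x0 y0 → ¬ Lf L x0 y0 := by
  intro h h'
  rw [V.vB x0 y0 (by omega) (by omega) (by omega) (by omega)] at h
  rw [V.vL x0 y0 (by omega) (by omega) (by omega) (by omega)] at h'
  have := g.gap x0 h.1 h.2.1
  omega

lemma r_br : B L x0 y0 → ¬ Rt L x0 y0 := by
  intro h h'
  rw [V.vB x0 y0 (by omega) (by omega) (by omega) (by omega)] at h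
  rw [V.vR x0 y0 (by omega) (by omega) (by omega) (by omega)] at h'
  have := g.gap x0 h.1 h.2.1
  omega

lemma r_lr : Lf L x0 y0 → ¬ Rt L x0 y0 := by
  intro h h'
  rw [V.vL x0 y0 (by omega) (by omega) (by omega) (by omega)] at h
  rw [V.vR x0 y0 (by omega) (by omega) (by omega) (by omega)] at h'
  omega

lemma r_nB : B L x0 y0 → ¬ E L x0 y0 → B L (x0 + 1) (y0 + dv L x0 y0) := by
  intro h hE
  exact (V.nextB (by omega) (by omega) (by omega) (by omega) h hE).2.2.2.2.2.2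

lemma r_nT : T L x0 y0 → ¬ E L x0 y0 → T L (x0 + 1) (y0 + dv L x0 y0) := by
  intro h hE
  exact (V.nextT (by omega) (by omega) (by omega) (by omega) h hE).2.2.2.2.2.2.1

lemma r_nM : M L x0 y0 → ¬ E L x0 y0 → M L (x0 + 1) (y0 + dv L x0 y0) := by
  rintro (h | h) hE
  · exact Or.inl (V.r_nB h hE)
  · exact Or.inr (V.r_nT h hE)

lemma r_nS : M L x0 y0 → ¬ E L x0 y0 → ¬ S L (x0 + 1) (y0 + dv L x0 y0) := by
  rintro (h | h) hE hS
  · obtain ⟨c1, c2, c3, c4, c5, c6, c7⟩ := V.nextB (by omega) (by omega) (by omega) (by omega) h hE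
    rw [V.vS _ _ (by omega) (by omega) (by omega) (by omega)
      (memB ⟨by omega, by omega, c4⟩)] at hS
    omega
  · obtain ⟨c1, c2, c3, c4, c5, c6, c7, _⟩ :=
      V.nextT (by omega) (by omega) (by omega) (by omega) h hE
    rw [V.vS _ _ (by omega) (by omega) (by omega) (by omega)
      (memT ⟨by omega, by omega, c4⟩)] at hS
    omega

lemma r_nR : Rt L x0 y0 → ¬ E L x0 y0 → Rt L (x0 + 1) (y0 + dv L x0 y0) := by
  intro h hE
  obtain ⟨c1, c2, c3, c4, c5, c6, c7, c8⟩ :=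
    V.nextT (by omega) (by omega) (by omega) (by omega) (T_of_Rt h) hE
  rw [V.vR x0 y0 (by omega) (by omega) (by omega) (by omega)] at h
  exact c8 (by omega)

lemma r_pv : M L x0 y0 → ¬ S L x0 y0 → ∃ e : ℤ, -1 ≤ e ∧ e ≤ 1 ∧ M L (x0 - 1) (y0 + e) ∧
    ¬ E L (x0 - 1) (y0 + e) ∧ dv L (x0 - 1) (y0 + e) = -e := by
  rintro (h | h) hS
  · have h1 := (V.vB x0 y0 (by omega) (by omega) (by omega) (by omega)).1 h
    have h2 : x0 ≠ g.A := fun e => hS ((V.vS x0 y0 (by omega) (by omega) (by omega) (by omega)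
      (memB h1)).2 e)
    have h3 := g.lo1 (x0 - 1) (by omega) (by omega)
    rw [sub_add_cancel] at h3
    have hb : B L (x0 - 1) (y0 + (g.LO (x0 - 1) - g.LO x0)) := by
      rw [V.vB _ _ (by omega) (by omega) (by omega) (by omega)]
      exact ⟨by omega, by omega, by omega⟩
    refine ⟨g.LO (x0 - 1) - g.LO x0, by omega, by omega, Or.inl hb, ?_, ?_⟩
    · rw [V.vE _ _ (by omega) (by omega) (by omega) (by omega)
        (memB ⟨by omega, by omega, by omega⟩)]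
      omega
    · rw [V.vdB _ _ (by omega) (by omega) (by omega) (by omega) hb (by omega), sub_add_cancel]
      omega
  · have h1 := (V.vT (x := x0) (y := y0) (by omega) (by omega) (by omega) (by omega)).1 h
    have h2 : x0 ≠ g.A := fun e => hS ((V.vS x0 y0 (by omega) (by omega) (by omega) (by omega)
      (memT h1)).2 e)
    have h3 := g.hi1 (i := x0 - 1) (by omega) (by omega)
    rw [sub_add_cancel] at h3
    have hb : T L (x0 - 1) (y0 + (g.HI (x0 - 1) - g.HI x0)) := by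
      rw [V.vT (by omega) (by omega) (by omega) (by omega)]
      exact ⟨by omega, by omega, by omega⟩
    refine ⟨g.HI (x0 - 1) - g.HI x0, by omega, by omega, Or.inr hb, ?_, ?_⟩
    · rw [V.vE _ _ (by omega) (by omega) (by omega) (by omega)
        (memT ⟨by omega, by omega, by omega⟩)]
      omega
    · rw [V.vdT _ _ (by omega) (by omega) (by omega) (by omega) hb (by omega), sub_add_cancel]
      omega

lemma nM_iff {x y : ℤ} (a1 : x0 - 19 ≤ x) (a2 : x ≤ x0 + 19) (a3 : y0 - 19 ≤ y)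
    (a4 : y ≤ y0 + 19) : M L x y ↔ g.A ≤ x ∧ x ≤ g.Z ∧ (y = g.LO x ∨ y = g.HI x) := by
  unfold M
  rw [V.vB x y a1 a2 a3 a4, V.vT a1 a2 a3 a4]
  constructor
  · rintro (⟨h1, h2, h3⟩ | ⟨h1, h2, h3⟩)
    · exact ⟨h1, h2, Or.inl h3⟩
    · exact ⟨h1, h2, Or.inr h3⟩
  · rintro ⟨h1, h2, h3 | h3⟩
    · exact Or.inl ⟨h1, h2, h3⟩
    · exact Or.inr ⟨h1, h2, h3⟩

lemma r_sp : M L x0 y0 → ∀ m : ℤ, 1 ≤ m → m ≤ 4 → ¬ M L x0 (y0 + m) := by
  intro h m m1 m4 h'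
  rw [V.nM_iff (by omega) (by omega) (by omega) (by omega)] at h h'
  have := g.gap x0 h.1 h.2.1
  obtain ⟨_, _, h | h⟩ := h <;> obtain ⟨_, _, h' | h'⟩ := h' <;> omega

lemma r_sB : B L x0 y0 → S L x0 y0 → Lf L x0 (y0 + 10) ∧ S L x0 (y0 + 10) ∧
    ∀ m : ℤ, 1 ≤ m → m ≤ 9 → ¬ M L x0 (y0 + m) := by
  intro h hS
  have h1 := (V.vB x0 y0 (by omega) (by omega) (by omega) (by omega)).1 h
  rw [V.vS x0 y0 (by omega) (by omega) (by omega) (by omega) (memB h1)] at hS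
  subst hS
  have e1 := g.hst
  have e2 := g.hat
  have e3 := g.htb
  refine ⟨?_, ?_, ?_⟩
  · rw [V.vL _ _ (by omega) (by omega) (by omega) (by omega)]
    exact ⟨by omega, by omega, by omega, by omega⟩
  · rw [V.vS _ _ (by omega) (by omega) (by omega) (by omega) (memT ⟨by omega, by omega, by omega⟩)]
  · intro m m1 m9
    rw [V.nM_iff (by omega) (by omega) (by omega) (by omega)]
    omega

lemma r_sT : T L x0 y0 → S L x0 y0 → B L x0 (y0 - 10) ∧ S L x0 (y0 - 10) := by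
  intro h hS
  have h1 := (V.vT (x := x0) (y := y0) (by omega) (by omega) (by omega) (by omega)).1 h
  rw [V.vS x0 y0 (by omega) (by omega) (by omega) (by omega) (memT h1)] at hS
  subst hS
  have e1 := g.hst
  have e2 := g.hat
  have e3 := g.htb
  refine ⟨?_, ?_⟩
  · rw [V.vB _ _ (by omega) (by omega) (by omega) (by omega)]
    exact ⟨by omega, by omega, by omega⟩
  · rw [V.vS _ _ (by omega) (by omega) (by omega) (by omega) (memB ⟨by omega, by omega, by omega⟩)]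

lemma r_eB : B L x0 y0 → E L x0 y0 → Rt L x0 (y0 + 10) ∧ E L x0 (y0 + 10) ∧
    ∀ m : ℤ, 1 ≤ m → m ≤ 9 → ¬ M L x0 (y0 + m) := by
  intro h hE
  have h1 := (V.vB x0 y0 (by omega) (by omega) (by omega) (by omega)).1 h
  rw [V.vE x0 y0 (by omega) (by omega) (by omega) (by omega) (memB h1)] at hE
  subst hE
  have e1 := g.hen
  have e2 := g.hat
  have e3 := g.htb
  refine ⟨?_, ?_, ?_⟩
  · rw [V.vR _ _ (by omega) (by omega) (by omega) (by omega)]
    exact ⟨by omega, by omega, by omega, by omega⟩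
  · rw [V.vE _ _ (by omega) (by omega) (by omega) (by omega) (memT ⟨by omega, by omega, by omega⟩)]
  · intro m m1 m9
    rw [V.nM_iff (by omega) (by omega) (by omega) (by omega)]
    omega

lemma r_eT : T L x0 y0 → E L x0 y0 → B L x0 (y0 - 10) ∧ E L x0 (y0 - 10) := by
  intro h hE
  have h1 := (V.vT (x := x0) (y := y0) (by omega) (by omega) (by omega) (by omega)).1 h
  rw [V.vE x0 y0 (by omega) (by omega) (by omega) (by omega) (memT h1)] at hE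
  subst hE
  have e1 := g.hen
  have e2 := g.hat
  have e3 := g.htb
  refine ⟨?_, ?_⟩
  · rw [V.vB _ _ (by omega) (by omega) (by omega) (by omega)]
    exact ⟨by omega, by omega, by omega⟩
  · rw [V.vE _ _ (by omega) (by omega) (by omega) (by omega) (memB ⟨by omega, by omega, by omega⟩)]

lemma r_es : B L x0 y0 → E L x0 y0 → ∀ n : ℤ, -15 ≤ n → n ≤ 15 → B L (x0 + 1) (y0 + n) →
    ¬ S L (x0 + 1) (y0 + n) := by
  intro h hE n n1 n2 h' hS
  have h1 := (V.vB x0 y0 (by omega) (by omega) (by omega) (by omega)).1 h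
  rw [V.vE x0 y0 (by omega) (by omega) (by omega) (by omega) (memB h1)] at hE
  have h2 := (V.vB _ _ (by omega) (by omega) (by omega) (by omega)).1 h'
  omega

lemma r_slB : B L x0 y0 → ¬ E L x0 y0 → ¬ E L (x0 + 1) (y0 + dv L x0 y0) →
    |dv L x0 y0 + dv L (x0 + 1) (y0 + dv L x0 y0)| ≤ 1 := by
  intro h hE hE'
  obtain ⟨c1, c2, c3, c4, c5, c6, c7⟩ := V.nextB (by omega) (by omega) (by omega) (by omega) h hE
  obtain ⟨d1, d2, d3, d4, d5, d6, d7⟩ :=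
    V.nextB (by omega) (by omega) (by omega) (by omega) c7 hE'
  have e : x0 + 1 + 1 = x0 + 2 := by ring
  rw [e] at d4
  have := g.lo2 x0 c1 d2
  rw [abs_le]
  omega

lemma r_slL : Lf L x0 y0 → 0 ≤ dv L x0 y0 := by
  intro h
  have h1 := (V.vL x0 y0 (by omega) (by omega) (by omega) (by omega)).1 h
  have := g.htb
  rw [V.vdT x0 y0 (by omega) (by omega) (by omega) (by omega) (T_of_Lf h) (by omega)]
  have := g.hL1 x0 h1.1 h1.2.2.2
  omega

lemma r_slL3 : Lf L x0 y0 → Lf L (x0 + 1) (y0 + dv L x0 y0) →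
    Lf L (x0 + 2) (y0 + dv L x0 y0 + dv L (x0 + 1) (y0 + dv L x0 y0)) →
    2 ≤ dv L x0 y0 + dv L (x0 + 1) (y0 + dv L x0 y0) +
      dv L (x0 + 2) (y0 + dv L x0 y0 + dv L (x0 + 1) (y0 + dv L x0 y0)) := by
  intro h h' h''
  have b1 := dv_le L x0 y0
  have b2 := le_dv L x0 y0
  have b3 := dv_le L (x0 + 1) (y0 + dv L x0 y0)
  have b4 := le_dv L (x0 + 1) (y0 + dv L x0 y0)
  have h1 := (V.vL x0 y0 (by omega) (by omega) (by omega) (by omega)).1 h
  have h2 := (V.vL _ _ (by omega) (by omega) (by omega) (by omega)).1 h'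
  have h3 := (V.vL _ _ (by omega) (by omega) (by omega) (by omega)).1 h''
  have := g.htb
  have d1 := V.vdT x0 y0 (by omega) (by omega) (by omega) (by omega) (T_of_Lf h) (by omega)
  have d2 := V.vdT _ _ (by omega) (by omega) (by omega) (by omega) (T_of_Lf h') (by omega)
  have d3 := V.vdT _ _ (by omega) (by omega) (by omega) (by omega) (T_of_Lf h'') (by omega)
  have e : x0 + 1 + 1 = x0 + 2 := by ring
  have e' : x0 + 2 + 1 = x0 + 3 := by ring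
  rw [e] at d2
  rw [e'] at d3
  have := g.hL3 x0 h1.1 (by omega)
  omega

lemma r_slR : Rt L x0 y0 → ¬ E L x0 y0 → dv L x0 y0 ≤ 0 := by
  intro h hE
  obtain ⟨c1, c2, c3, c4, _⟩ :=
    V.nextT (by omega) (by omega) (by omega) (by omega) (T_of_Rt h) hE
  have h1 := (V.vR x0 y0 (by omega) (by omega) (by omega) (by omega)).1 h
  have := g.hR1 x0 h1.2.2.2 c2
  omega

lemma r_slR3 : Rt L x0 y0 → ¬ E L x0 y0 → ¬ E L (x0 + 1) (y0 + dv L x0 y0) →
    ¬ E L (x0 + 2) (y0 + dv L x0 y0 + dv L (x0 + 1) (y0 + dv L x0 y0)) →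
    dv L x0 y0 + dv L (x0 + 1) (y0 + dv L x0 y0) +
      dv L (x0 + 2) (y0 + dv L x0 y0 + dv L (x0 + 1) (y0 + dv L x0 y0)) ≤ -2 := by
  intro h hE hE' hE''
  have h1 := (V.vR x0 y0 (by omega) (by omega) (by omega) (by omega)).1 h
  obtain ⟨c1, c2, c3, c4, c5, c6, c7, _⟩ :=
    V.nextT (by omega) (by omega) (by omega) (by omega) (T_of_Rt h) hE
  obtain ⟨d1, d2, d3, d4, d5, d6, d7, _⟩ :=
    V.nextT (by omega) (by omega) (by omega) (by omega) c7 hE'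
  have e : x0 + 1 + 1 = x0 + 2 := by ring
  have e' : x0 + 2 + 1 = x0 + 3 := by ring
  rw [e] at d4 d7
  obtain ⟨f1, f2, f3, f4, f5, f6, _, _⟩ :=
    V.nextT (by omega) (by omega) (by omega) (by omega) d7 hE''
  rw [e'] at f4
  have := g.hR3 x0 h1.2.2.2 (by omega)
  omega

end Vw

end LCLZ
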