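import Pool.Agent.helper28.LCL.Steps2

/-!
# The constants, and the three constructions over all levels
-/

namespace LCLZ.G

/-- basic scale -/
def sl : ℕ → ℤ
  | 0 => 100
  | j + 1 => 1000000000 * 4 ^ j * sl j

/-- half size of the square containing an island of level `j` -/
def sz (j : ℕ) : ℤ := 100 * sl j
/-- radius of the zone in which heights are modified -/
def rho (j : ℕ) : ℤ := 10000 * 2 ^ j * sl j
/-- clearance of curves -/
def kap (j : ℕ) : ℤ := 20000 * 2 ^ j * sl j
/-- half width of the bumps -/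
def om (j : ℕ) : ℤ := 20000000 * 4 ^ j * sl j
/-- clearance of corners -/
def Om (j : ℕ) : ℤ := 60000000 * 4 ^ j * sl j
/-- separation of centres of level `j` -/
def rr (j : ℕ) : ℤ := 600000000 * 4 ^ j * sl j

lemma sl_ge (j : ℕ) : 100 ≤ sl j := by
  induction j with
  | zero => simp [sl]
  | succ j ih =>
    have h4 : (1:ℤ) ≤ 4 ^ j := one_le_pow₀ (by norm_num)
    simp only [sl]
    nlinarith

lemma one_le_two_pow' (j : ℕ) : (1:ℤ) ≤ 2 ^ j := one_le_pow₀ (by norm_num)

lemma four_pow' (j : ℕ) : (4:ℤ) ^ j = 2 ^ j * 2 ^ j := by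
  rw [← mul_pow]; norm_num

lemma four_powR (j : ℕ) : (4:ℝ) ^ j = 2 ^ j * 2 ^ j := by
  rw [← mul_pow]; norm_num

/-- linear facts about the scales -/
lemma facts (j : ℕ) : ∃ P s w W : ℤ, 1 ≤ P ∧ 100 ≤ s ∧ s ≤ w ∧ w ≤ W ∧ P = 2 ^ j ∧ s = sl j ∧
    w = P * s ∧ W = P * P * s ∧
    sl (j + 1) = 1000000000 * W ∧ sz j = 100 * s ∧ rho j = 10000 * w ∧ kap j = 20000 * w ∧
    om j = 20000000 * W ∧ Om j = 60000000 * W ∧ rr j = 600000000 * W := by
  have h1 := one_le_two_pow' j
  have h2 := sl_ge j
  refine ⟨2 ^ j, sl j, 2 ^ j * sl j, 2 ^ j * 2 ^ j * sl j, h1, h2, ?_, ?_, rfl, rfl, rfl, rfl,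
    ?_, ?_, ?_, ?_, ?_, ?_, ?_⟩
  · nlinarith
  · have : 2 ^ j * sl j ≤ 2 ^ j * (2 ^ j * sl j) :=
      le_mul_of_one_le_left (mul_nonneg (by linarith) (by linarith)) h1
    linarith [this, mul_assoc ((2:ℤ) ^ j) (2 ^ j) (sl j)]
  · simp only [sl]; rw [four_pow']; ring
  · simp only [sz]
  · simp only [rho]; ring
  · simp only [kap]; ring
  · simp only [om]; rw [four_pow']; ring
  · simp only [Om]; rw [four_pow']; ring
  · simp only [rr]; rw [four_pow']; ring

/-- separation hypothesis -/
def Sep' (k : ℕ) (O : ℕ → Set (ℤ × ℤ)) : Prop :=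
  ∀ j < k, ∀ u ∈ O j, ∀ v ∈ O j, u ≠ v → rr j ≤ sd' u v

lemma half_pow (j : ℕ) : ∃ q : ℝ, 0 < q ∧ q ≤ 1 ∧ q = (1 / 2) ^ j ∧ q * (2:ℝ) ^ j = 1 ∧
    (1 / 2 : ℝ) ^ (j + 1) = q / 2 := by
  refine ⟨(1 / 2) ^ j, by positivity, pow_le_one₀ (by norm_num) (by norm_num), rfl, ?_, ?_⟩
  · rw [← mul_pow]; norm_num
  · rw [pow_succ]; ring

theorem heights (k : ℕ) (O : ℕ → Set (ℤ × ℤ)) (hO : Sep' k O) :
    ∃ f : ℤ → ℤ → ℝ, (∀ x y, |f (x + 1) y - f x y| ≤ 3 / 2) ∧
      (∀ x y, |f x (y + 1) - f x y| ≤ 3 / 2) ∧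
      (∀ i < k, ∀ u ∈ O i, ∀ x y, sd' (x, y) u ≤ sz i + 100 → f x y = f u.1 u.2) ∧
      (∀ x y : ℤ, (∀ i < k, ∀ u ∈ O i, rho i ≤ sd' (x, y) u) → f x y = x) := by
  have main : ∀ j, j ≤ k → ∃ f : ℤ → ℤ → ℝ,
      (∀ x y, |f (x + 1) y - f x y| ≤ 1 + 1 / 4 * (1 / 2) ^ j) ∧
      (∀ x y, |f x (y + 1) - f x y| ≤ 1 + 1 / 4 * (1 / 2) ^ j) ∧
      (∀ i, j ≤ i → i < k → ∀ u ∈ O i, ∀ x y, sd' (x, y) u ≤ sz i + sl j → f x y = f u.1 u.2) ∧
      (∀ x y : ℤ, (∀ i, j ≤ i → i < k → ∀ u ∈ O i, rho i ≤ sd' (x, y) u) → f x y = x) := by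
    intro j hj
    induction hj using Nat.decreasingInduction with
    | self =>
      refine ⟨fun x _ => (x : ℝ), ?_, ?_, ?_, ?_⟩
      · intro x y
        have h : (0:ℝ) ≤ 1 / 4 * (1 / 2) ^ k := by positivity
        have : ((x + 1 : ℤ) : ℝ) - x = 1 := by push_cast; ring
        rw [this, abs_one]; linarith
      · intro x y
        have h : (0:ℝ) ≤ 1 / 4 * (1 / 2) ^ k := by positivity
        rw [sub_self, abs_zero]; linarith
      · intro i h1 h2; omega
      · intro x y _; rfl
    | of_succ j hj ih =>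
      obtain ⟨f, fH, fV, fc, ff⟩ := ih
      obtain ⟨P, s, w, W, hP, hs, hsw, hwW, eP, es, ew, eW, e1, e2, e3, e4, e5, e6, e7⟩ := facts j
      obtain ⟨q, hq0, hq1, eq, eqP, eq2⟩ := half_pow j
      have hsR : (100:ℝ) ≤ s := by exact_mod_cast hs
      have hswR : (s:ℝ) ≤ w := by exact_mod_cast hsw
      have hwWR : (w:ℝ) ≤ W := by exact_mod_cast hwW
      have ewR : (w:ℝ) = 2 ^ j * s := by rw [ew, eP]; push_cast; ring
      have qw : q * w = s := by rw [ewR, ← mul_assoc, eqP, one_mul]
      have qs : q * s ≤ s := by nlinarith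
      obtain ⟨f', f'H, f'V, f'c, f'f⟩ := height_step f (O j) (101 * s : ℝ) (10000 * w : ℝ)
        (1 + 1 / 4 * (1 / 2) ^ (j + 1)) (1 / 8 * q) (by linarith) (by linarith)
        (by positivity) (by rw [eq2]; linarith)
        (by nlinarith)
        (by
          intro u hu v hv hne
          have h1 := hO j hj u hu v hv hne
          rw [e7] at h1
          have h2 : (600000000 * W : ℝ) ≤ (sd' u v : ℝ) := by exact_mod_cast h1
          linarith) fH fV
      have eL : 1 + 1 / 4 * (1 / 2 : ℝ) ^ (j + 1) + 1 / 8 * q = 1 + 1 / 4 * (1 / 2) ^ j := by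
        rw [eq2, eq]; ring
      rw [eL] at f'H f'V
      refine ⟨f', f'H, f'V, ?_, ?_⟩
      · intro i hji hik u hu x y hd
        rcases Nat.eq_or_lt_of_le hji with h | h
        · subst h
          have c1 : (sd' (x, y) u : ℝ) ≤ 101 * s := by
            have : sd' (x, y) u ≤ 101 * s := by rw [e2, ← es] at hd; linarith
            exact_mod_cast this
          have c2 : (sd' (u.1, u.2) u : ℝ) ≤ 101 * s := by
            have : sd' (u.1, u.2) u = 0 := by simp [sd']
            rw [this]; push_cast; linarith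
          rw [f'c u hu x y c1, f'c u hu u.1 u.2 c2]
        · have key : ∀ x y, sd' (x, y) u ≤ sz i + sl j → f' x y = f u.1 u.2 := by
            intro x y hd
            have g1 : f x y = f u.1 u.2 := fc i h hik u hu x y (by
              rw [e1]; rw [← es] at hd; linarith)
            rw [f'f x y, g1]
            intro v hv hlt
            have hlt' : sd' (x, y) v ≤ 10000 * w := by
              have : (sd' (x, y) v : ℝ) ≤ ((10000 * w : ℤ) : ℝ) := by push_cast; exact hlt.le
              exact_mod_cast this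
            have g2 : f v.1 v.2 = f u.1 u.2 := fc i h hik u hu v.1 v.2 (by
              have t := sd'_triangle v (x, y) u
              rw [sd'_comm v (x, y)] at t
              rw [e1]; rw [← es] at hd
              have : sd' (v.1, v.2) u = sd' v u := rfl
              rw [this]; linarith)
            rw [g1, g2]
          rw [key x y hd, key u.1 u.2]
          have : sd' (u.1, u.2) u = 0 := by simp [sd']
          rw [this]
          have := sl_ge j
          have := sl_ge i
          simp only [sz]; linarith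
      · intro x y hall
        rw [f'f x y]
        · exact ff x y (fun i h1 h2 => hall i (by omega) h2)
        · intro v hv hlt
          exfalso
          have h1 := hall j le_rfl hj v hv
          rw [e3] at h1
          have h2 : (10000 * w : ℝ) ≤ (sd' (x, y) v : ℝ) := by exact_mod_cast h1
          linarith
  obtain ⟨f, fH, fV, fc, ff⟩ := main 0 (Nat.zero_le k)
  refine ⟨f, ?_, ?_, ?_, ?_⟩
  · intro x y; refine (fH x y).trans ?_; norm_num
  · intro x y; refine (fV x y).trans ?_; norm_num
  · intro i hi u hu x y hd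
    exact fc i (Nat.zero_le i) hi u hu x y hd
  · intro x y hall
    exact ff x y (fun i _ hi => hall i hi)

theorem curves (k : ℕ) (O : ℕ → Set (ℤ × ℤ)) (hO : Sep' k O) (g : ℤ → ℝ)
    (hg : ∀ x, |g (x + 1) - g x| ≤ 4 / 5) :
    ∃ h : ℤ → ℝ, (∀ x, |(h (x + 1) - h x) - (g (x + 1) - g x)| ≤ 1 / 50) ∧
      (∀ i < k, ∀ u ∈ O i, ∀ x : ℤ, |(x : ℝ) - u.1| ≤ kap i → (kap i : ℝ) ≤ |h x - u.2|) ∧
      (∀ x : ℤ, (∀ i < k, ∀ u ∈ O i, |(x : ℝ) - u.1| < om i → 2 * (om i : ℝ) < |g x - u.2|) →
        h x = g x) := by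
  have main : ∀ j, j ≤ k → ∃ h : ℤ → ℝ,
      (∀ x, |(h (x + 1) - h x) - (g (x + 1) - g x)| ≤ 1 / 50 * (1 / 2) ^ j) ∧
      (∀ i, j ≤ i → i < k → ∀ u ∈ O i, ∀ x : ℤ, |(x : ℝ) - u.1| ≤ kap i →
        (kap i : ℝ) + sl j ≤ |h x - u.2|) ∧
      (∀ x : ℤ, (∀ i, j ≤ i → i < k → ∀ u ∈ O i, |(x : ℝ) - u.1| < om i →
        2 * (om i : ℝ) < |g x - u.2|) → h x = g x) := by
    intro j hj
    induction hj using Nat.decreasingInduction with
    | self =>
      refine ⟨g, ?_, ?_, ?_⟩
      · intro x; rw [sub_self, abs_zero]; positivity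
      · intro i h1 h2; omega
      · intro x _; rfl
    | of_succ j hj ih =>
      obtain ⟨h, hD, hC, hE⟩ := ih
      obtain ⟨P, s, w, W, hP, hs, hsw, hwW, eP, es, ew, eW, e1, e2, e3, e4, e5, e6, e7⟩ := facts j
      obtain ⟨q, hq0, hq1, eq, eqP, eq2⟩ := half_pow j
      have hsR : (100:ℝ) ≤ s := by exact_mod_cast hs
      have hswR : (s:ℝ) ≤ w := by exact_mod_cast hsw
      have hwWR : (w:ℝ) ≤ W := by exact_mod_cast hwW
      have ewR : (w:ℝ) = 2 ^ j * s := by rw [ew, eP]; push_cast; ring
      have eWR : (W:ℝ) = 2 ^ j * w := by rw [eW, eP, ewR]; push_cast; ring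
      have qw : q * w = s := by rw [ewR, ← mul_assoc, eqP, one_mul]
      have qW : q * W = w := by rw [eWR, ← mul_assoc, eqP, one_mul]
      obtain ⟨g', g'D, g'A, g'C, g'E⟩ := curve_step h (O j) (20000 * w : ℝ) (20000000 * W : ℝ)
        (600000000 * W : ℝ) (1 / 100 * q) (by linarith) (by linarith)
        (by
          have : 1 / 100 * q * (20000000 * W - 20000 * w) =
            200000 * (q * W) - 200 * (q * w) := by ring
          rw [this, qw, qW]; linarith)
        (by linarith)
        (by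
          intro u hu v hv hne
          have h1 := hO j hj u hu v hv hne
          rw [e7] at h1
          exact_mod_cast h1)
        (by
          intro x
          have h1 := hD x
          have h2 := hg x
          rw [eq2] at h1
          have h3 : h (x + 1) - h x = (h (x + 1) - h x - (g (x + 1) - g x)) + (g (x + 1) - g x) := by
            ring
          rw [h3]
          refine (abs_add_le _ _).trans ?_
          linarith)
      refine ⟨g', ?_, ?_, ?_⟩
      · intro x
        have h1 := hD x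
        have h2 := g'D x
        rw [eq2] at h1
        have h3 : g' (x + 1) - g' x - (g (x + 1) - g x) =
          (g' (x + 1) - g' x - (h (x + 1) - h x)) + (h (x + 1) - h x - (g (x + 1) - g x)) := by
          ring
        rw [h3]
        refine (abs_add_le _ _).trans ?_
        rw [← eq]; linarith
      · intro i hji hik u hu x hx
        rcases Nat.eq_or_lt_of_le hji with hh | hh
        · subst hh
          rw [e4] at hx ⊢
          rw [← es]
          push_cast at hx ⊢
          have h1 := g'C u hu x hx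
          linarith
        · have h1 := hC i hh hik u hu x hx
          have h2 := g'A x
          have h3 : |h x - u.2| ≤ |g' x - u.2| + 2 * (20000 * w) := by
            have : h x - u.2 = (g' x - u.2) - (g' x - h x) := by ring
            rw [this]
            exact (abs_sub _ _).trans (by linarith)
          rw [e1] at h1
          rw [← es]
          push_cast at h1
          linarith
      · intro x hall
        have h1 : h x = g x := hE x (fun i a b => hall i (by omega) b)
        rw [g'E x, h1]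
        intro u hu hlt
        have h2 := hall j le_rfl hj u hu
        rw [e5] at h2
        push_cast at h2
        rw [h1]
        exact h2 hlt
  obtain ⟨h, hD, hC, hE⟩ := main 0 (Nat.zero_le k)
  refine ⟨h, ?_, ?_, ?_⟩
  · intro x; refine (hD x).trans ?_; norm_num
  · intro i hi u hu x hx
    have h1 := hC i (Nat.zero_le i) hi u hu x hx
    have h2 : (100:ℝ) ≤ sl 0 := by exact_mod_cast sl_ge 0
    linarith
  · intro x hall
    exact hE x (fun i _ hi => hall i hi)

theorem corners (k : ℕ) (O : ℕ → Set (ℤ × ℤ)) (hO : Sep' k O) (x0 y : ℤ) :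
    ∃ x : ℤ, |x - x0| ≤ sl k ∧ 2 ∣ x - x0 ∧ ∀ i < k, ∀ u ∈ O i, Om i + 100 ≤ sd' (x, y) u := by
  have main : ∀ j, j ≤ k → ∃ x : ℤ, |x - x0| ≤ sl k - sl j ∧ 2 ∣ x - x0 ∧
      ∀ i, j ≤ i → i < k → ∀ u ∈ O i, Om i + sl j ≤ sd' (x, y) u := by
    intro j hj
    induction hj using Nat.decreasingInduction with
    | self =>
      refine ⟨x0, by simp, by simp, ?_⟩
      intro i h1 h2; omega
    | of_succ j hj ih =>
      obtain ⟨x, hx1, hx2, hx3⟩ := ih
      obtain ⟨P, s, w, W, hP, hs, hsw, hwW, eP, es, ew, eW, e1, e2, e3, e4, e5, e6, e7⟩ := facts j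
      obtain ⟨x', h1, h2, h3⟩ := corner_step x y (O j) (60000000 * W + s) (by linarith)
        (by
          intro u hu v hv hne
          have h1 := hO j hj u hu v hv hne
          rw [e7] at h1
          linarith)
      refine ⟨x', ?_, ?_, ?_⟩
      · have t : x' - x0 = (x' - x) + (x - x0) := by ring
        rw [t]
        refine (abs_add_le _ _).trans ?_
        rw [e1] at hx1
        rw [← es]
        linarith
      · have t : x' - x0 = (x' - x) + (x - x0) := by ring
        rw [t]; exact dvd_add h2 hx2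
      · intro i hji hik u hu
        rcases Nat.eq_or_lt_of_le hji with hh | hh
        · subst hh
          rw [e6, ← es]; exact h3 u hu
        · have g1 := hx3 i hh hik u hu
          rw [e1] at g1
          have g2 := sd'_triangle (x, y) (x', y) u
          have g3 : sd' (x, y) (x', y) ≤ |x' - x| := by
            unfold sd'
            simp only [sub_self, abs_zero]
            rw [abs_sub_comm x x']
            exact max_le le_rfl (abs_nonneg _)
          rw [← es]
          linarith
  obtain ⟨x, h1, h2, h3⟩ := main 0 (Nat.zero_le k)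
  refine ⟨x, ?_, h2, ?_⟩
  · have := sl_ge 0; linarith
  · intro i hi u hu
    exact h3 i (Nat.zero_le i) hi u hu

end LCLZ.G
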