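import Pool.Agent.helper13.LCL.Shape
import Pool.Agent.helper28.LCL.Levels

/-!
# Existence of island shapes
-/

namespace LCLZ.G

lemma floor_near {p q : ℝ} (h : |p - q| < 1) : |⌊p⌋ - ⌊q⌋| ≤ 1 := by
  have h1 := abs_lt.1 h
  have a1 := Int.floor_le p
  have a2 := Int.lt_floor_add_one p
  have b1 := Int.floor_le q
  have b2 := Int.lt_floor_add_one q
  have c1 : (⌊p⌋ : ℝ) < ⌊q⌋ + 2 := by linarith [h1.2]
  have c2 : (⌊q⌋ : ℝ) < ⌊p⌋ + 2 := by linarith [h1.1]
  have d1 : ⌊p⌋ < ⌊q⌋ + 2 := by exact_mod_cast c1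
  have d2 : ⌊q⌋ < ⌊p⌋ + 2 := by exact_mod_cast c2
  rw [abs_le]; omega

lemma floor_near2 {p q : ℝ} (h : |p - q| ≤ 3 / 2) : |⌊p⌋ - ⌊q⌋| ≤ 2 := by
  have h1 := abs_le.1 h
  have a1 := Int.floor_le p
  have a2 := Int.lt_floor_add_one p
  have b1 := Int.floor_le q
  have b2 := Int.lt_floor_add_one q
  have c1 : (⌊p⌋ : ℝ) < ⌊q⌋ + 3 := by linarith [h1.2]
  have c2 : (⌊q⌋ : ℝ) < ⌊p⌋ + 3 := by linarith [h1.1]
  have d1 : ⌊p⌋ < ⌊q⌋ + 3 := by exact_mod_cast c1
  have d2 : ⌊q⌋ < ⌊p⌋ + 3 := by exact_mod_cast c2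
  rw [abs_le]; omega

lemma floor_up {p q : ℝ} (h1 : 0 ≤ q - p) (h2 : q - p < 1) : ⌊p⌋ ≤ ⌊q⌋ ∧ ⌊q⌋ ≤ ⌊p⌋ + 1 := by
  constructor
  · exact Int.floor_le_floor (by linarith)
  · have a2 := Int.lt_floor_add_one p
    have b1 := Int.floor_le q
    have c1 : (⌊q⌋ : ℝ) < ⌊p⌋ + 2 := by linarith
    have d1 : ⌊q⌋ < ⌊p⌋ + 2 := by exact_mod_cast c1
    omega

lemma floor_up2 {p q : ℝ} (h : 2 ≤ q - p) : ⌊p⌋ + 2 ≤ ⌊q⌋ := by
  rw [Int.le_floor]
  push_cast
  linarith [Int.floor_le p]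

/-- a graph at clearance `κ` stays at clearance `κ - 1` after taking floors -/
lemma clear_floor {h : ℤ → ℝ} {u : ℤ × ℤ} {κ : ℤ}
    (hc : ∀ x : ℤ, |(x : ℝ) - u.1| ≤ κ → (κ : ℝ) ≤ |h x - u.2|) (x : ℤ) :
    κ - 1 ≤ sd' (x, ⌊h x⌋) u := by
  by_cases hx : |(x : ℝ) - u.1| ≤ κ
  · have h1 := hc x hx
    have h2 : |(⌊h x⌋ : ℝ) - h x| ≤ 1 := by
      rw [abs_le]
      constructor
      · linarith [Int.lt_floor_add_one (h x)]
      · linarith [Int.floor_le (h x)]
    have h3 : (κ : ℝ) - 1 ≤ |(⌊h x⌋ : ℝ) - u.2| := by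
      have : h x - u.2 = ((⌊h x⌋ : ℝ) - u.2) - ((⌊h x⌋ : ℝ) - h x) := by ring
      rw [this] at h1
      have := abs_sub ((⌊h x⌋ : ℝ) - u.2) ((⌊h x⌋ : ℝ) - h x)
      linarith
    have h4 : κ - 1 ≤ |⌊h x⌋ - u.2| := by exact_mod_cast h3
    exact h4.trans (abs2_le_sd' (x, ⌊h x⌋) u)
  · push Not at hx
    have h4 : κ < |x - u.1| := by exact_mod_cast hx
    have := abs1_le_sd' (x, ⌊h x⌋) u
    simp only at this
    omega

/-- exactness of curves above a corner -/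
lemma exact_at {k : ℕ} {O : ℕ → Set (ℤ × ℤ)} {x y z : ℤ} (hz : |z - y| ≤ 10)
    (hc : ∀ i < k, ∀ u ∈ O i, Om i + 100 ≤ sd' (x, y) u) :
    ∀ i < k, ∀ u ∈ O i, |(x : ℝ) - u.1| < om i → 2 * (om i : ℝ) < |(z : ℝ) - u.2| := by
  intro i hi u hu hlt
  have h1 := hc i hi u hu
  obtain ⟨P, s, w, W, hP, hs, hsw, hwW, eP, es, ew, eW, e1, e2, e3, e4, e5, e6, e7⟩ := facts i
  have h2 : |x - u.1| < om i := by exact_mod_cast hlt
  rw [e6] at h1
  rw [e5] at h2 ⊢
  have h3 : 60000000 * W + 100 ≤ |y - u.2| := by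
    unfold sd' at h1
    simp only at h1
    rcases le_max_iff.1 h1 with h | h
    · omega
    · exact h
  have h4 : |y - u.2| ≤ |z - u.2| + 10 := by
    have : y - u.2 = (z - u.2) - (z - y) := by ring
    rw [this]
    exact (abs_sub _ _).trans (by omega)
  have h5 : 2 * (20000000 * W) < |z - u.2| := by omega
  exact_mod_cast h5

theorem exists_shape (k : ℕ) (O : ℕ → Set (ℤ × ℤ)) (hO : Sep' k O) :
    Nonempty (Shape sz k O) := by
  obtain ⟨s, hs⟩ : ∃ s, s = sl k := ⟨_, rfl⟩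
  have hs100 : 100 ≤ s := hs ▸ sl_ge k
  have hszk : sz k = 100 * s := by rw [hs]; rfl
  obtain ⟨f, fH, fV, fc, ff⟩ := heights k O hO
  obtain ⟨a, ha1, ha2, ha3⟩ := corners k O hO (-50 * s) (-12 * s)
  obtain ⟨b, hb1, hb2, hb3⟩ := corners k O hO (50 * s) (-12 * s)
  rw [← hs] at ha1 hb1
  obtain ⟨t, ht⟩ : ∃ t, a + b = 2 * t := by
    obtain ⟨c, hc⟩ := ha2
    obtain ⟨d, hd⟩ := hb2
    exact ⟨c + d, by linarith⟩
  have ha1' := abs_le.1 ha1
  have hb1' := abs_le.1 hb1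
  obtain ⟨y0, hy0⟩ : ∃ y0, y0 = -12 * s := ⟨_, rfl⟩
  rw [← hy0] at ha3 hb3
  -- the base
  obtain ⟨h1, h1D, h1C, h1E⟩ := curves k O hO (fun _ => (y0 : ℝ)) (by
    intro x; simp only [sub_self, abs_zero]; norm_num)
  -- the roof
  set g2 : ℤ → ℝ := fun x => (y0 : ℝ) + 10 + 4 / 5 * min ((x : ℝ) - a) ((b : ℝ) - x) with hg2
  have hg2L : ∀ x : ℤ, x + 1 ≤ t → g2 x = y0 + 10 + 4 / 5 * ((x : ℝ) - a) := by
    intro x hx
    simp only [hg2]
    rw [min_eq_left]
    have : 2 * x ≤ a + b := by linarith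
    have : (2 * x : ℝ) ≤ a + b := by exact_mod_cast this
    linarith
  have hg2L' : ∀ x : ℤ, x ≤ t → g2 x = y0 + 10 + 4 / 5 * ((x : ℝ) - a) := by
    intro x hx
    simp only [hg2]
    rw [min_eq_left]
    have : 2 * x ≤ a + b := by linarith
    have : (2 * x : ℝ) ≤ a + b := by exact_mod_cast this
    linarith
  have hg2R : ∀ x : ℤ, t ≤ x → g2 x = y0 + 10 + 4 / 5 * ((b : ℝ) - x) := by
    intro x hx
    simp only [hg2]
    rw [min_eq_right]
    have : a + b ≤ 2 * x := by linarith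
    have : (a + b : ℝ) ≤ 2 * x := by exact_mod_cast this
    linarith
  obtain ⟨h2, h2D, h2C, h2E⟩ := curves k O hO g2 (by
    intro x
    rcases lt_or_ge x t with hx | hx
    · rw [hg2L' x hx.le, hg2L' (x + 1) (by omega)]
      push_cast
      have : (y0 : ℝ) + 10 + 4 / 5 * (x + 1 - a) - (y0 + 10 + 4 / 5 * (x - a)) = 4 / 5 := by ring
      rw [this]; norm_num [abs_of_pos]
    · rw [hg2R x hx, hg2R (x + 1) (by omega)]
      push_cast
      have : (y0 : ℝ) + 10 + 4 / 5 * (b - (x + 1)) - (y0 + 10 + 4 / 5 * (b - x)) = -(4 / 5) := by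
        ring
      rw [this, abs_neg]; norm_num [abs_of_pos])
  have sR : (100:ℝ) ≤ s := by exact_mod_cast hs100
  have y0R : (y0 : ℝ) = -12 * s := by rw [hy0]; push_cast; ring
  have aR1 : -51 * (s:ℝ) ≤ a := by
    have : -51 * s ≤ a := by linarith [ha1'.1]
    exact_mod_cast this
  have aR2 : (a:ℝ) ≤ -49 * s := by
    have : a ≤ -49 * s := by linarith [ha1'.2]
    exact_mod_cast this
  have bR1 : 49 * (s:ℝ) ≤ b := by
    have : 49 * s ≤ b := by linarith [hb1'.1]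
    exact_mod_cast this
  have bR2 : (b:ℝ) ≤ 51 * s := by
    have : b ≤ 51 * s := by linarith [hb1'.2]
    exact_mod_cast this
  -- exact values at the corners
  have e1a : h1 a = y0 := h1E a (exact_at (z := y0) (by simp) ha3)
  have e1b : h1 b = y0 := h1E b (exact_at (z := y0) (by simp) hb3)
  have g2a : g2 a = ((y0 + 10 : ℤ) : ℝ) := by
    rw [hg2L' a (by linarith)]; push_cast; ring
  have g2b : g2 b = ((y0 + 10 : ℤ) : ℝ) := by
    rw [hg2R b (by linarith)]; push_cast; ring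
  have e2a : h2 a = ((y0 + 10 : ℤ) : ℝ) := by
    rw [h2E a, g2a]
    rw [g2a]
    exact exact_at (z := y0 + 10) (by
      have : y0 + 10 - y0 = 10 := by ring
      rw [this]; norm_num) ha3
  have e2b : h2 b = ((y0 + 10 : ℤ) : ℝ) := by
    rw [h2E b, g2b]
    rw [g2b]
    exact exact_at (z := y0 + 10) (by
      have : y0 + 10 - y0 = 10 := by ring
      rw [this]; norm_num) hb3
  -- the deviations
  have d1 : ∀ x, |h1 (x + 1) - h1 x| ≤ 1 / 50 := by
    intro x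
    have := h1D x
    simpa using this
  have l1 := lip_of_step d1
  have d2 : ∀ x, |(fun x => h2 x - g2 x) (x + 1) - (fun x => h2 x - g2 x) x| ≤ 1 / 50 := by
    intro x
    have := h2D x
    simp only
    have e : h2 (x + 1) - g2 (x + 1) - (h2 x - g2 x) = h2 (x + 1) - h2 x - (g2 (x + 1) - g2 x) := by
      ring
    rw [e]; exact this
  have l2 := lip_of_step (g := fun x => h2 x - g2 x) (c := 1 / 50) d2
  have dev1 : ∀ i : ℤ, a ≤ i → i ≤ b →
      |h1 i - y0| ≤ 1 / 50 * min ((i : ℝ) - a) ((b : ℝ) - i) := by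
    intro i hai hib
    have hai' : (a : ℝ) ≤ i := by exact_mod_cast hai
    have hib' : (i : ℝ) ≤ b := by exact_mod_cast hib
    have t1 := l1 i a
    have t2 := l1 i b
    rw [e1a, abs_of_nonneg (by linarith : (0:ℝ) ≤ (i:ℝ) - a)] at t1
    rw [e1b, abs_sub_comm (i:ℝ) b, abs_of_nonneg (by linarith : (0:ℝ) ≤ (b:ℝ) - i)] at t2
    rcases min_choice ((i : ℝ) - a) ((b : ℝ) - i) with h | h <;> rw [h] <;> assumption
  have dev2 : ∀ i : ℤ, a ≤ i → i ≤ b →
      |h2 i - g2 i| ≤ 1 / 50 * min ((i : ℝ) - a) ((b : ℝ) - i) := by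
    intro i hai hib
    have hai' : (a : ℝ) ≤ i := by exact_mod_cast hai
    have hib' : (i : ℝ) ≤ b := by exact_mod_cast hib
    have t1 := l2 i a
    have t2 := l2 i b
    rw [e2a, g2a, sub_self, sub_zero, abs_of_nonneg (by linarith : (0:ℝ) ≤ (i:ℝ) - a)] at t1
    rw [e2b, g2b, sub_self, sub_zero, abs_sub_comm (i:ℝ) b,
      abs_of_nonneg (by linarith : (0:ℝ) ≤ (b:ℝ) - i)] at t2
    rcases min_choice ((i : ℝ) - a) ((b : ℝ) - i) with h | h <;> rw [h] <;> assumption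
  have mnn : ∀ i : ℤ, a ≤ i → i ≤ b → 0 ≤ min ((i : ℝ) - a) ((b : ℝ) - i) := by
    intro i hai hib
    have hai' : (a : ℝ) ≤ i := by exact_mod_cast hai
    have hib' : (i : ℝ) ≤ b := by exact_mod_cast hib
    exact le_min (by linarith) (by linarith)
  have mle : ∀ i : ℤ, min ((i : ℝ) - a) ((b : ℝ) - i) ≤ 51 * s := by
    intro i
    have := min_le_left ((i : ℝ) - a) ((b : ℝ) - i)
    have := min_le_right ((i : ℝ) - a) ((b : ℝ) - i)
    linarith
  -- bounds for the curves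
  have B1 : ∀ i : ℤ, a ≤ i → i ≤ b →
      (y0:ℝ) - 1 / 50 * min ((i : ℝ) - a) ((b : ℝ) - i) ≤ h1 i ∧
      h1 i ≤ (y0:ℝ) + 1 / 50 * min ((i : ℝ) - a) ((b : ℝ) - i) := by
    intro i hai hib
    have := abs_le.1 (dev1 i hai hib)
    constructor <;> linarith [this.1, this.2]
  have B2 : ∀ i : ℤ, a ≤ i → i ≤ b →
      (y0:ℝ) + 10 + 39 / 50 * min ((i : ℝ) - a) ((b : ℝ) - i) ≤ h2 i ∧
      h2 i ≤ (y0:ℝ) + 10 + 41 / 50 * min ((i : ℝ) - a) ((b : ℝ) - i) := by
    intro i hai hib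
    have := abs_le.1 (dev2 i hai hib)
    have e : g2 i = (y0 : ℝ) + 10 + 4 / 5 * min ((i : ℝ) - a) ((b : ℝ) - i) := rfl
    rw [e] at this
    constructor <;> linarith [this.1, this.2]
  -- clearances
  have C1 : ∀ j < k, ∀ u ∈ O j, ∀ i : ℤ, kap j - 1 ≤ sd' (i, ⌊h1 i⌋) u := by
    intro j hj u hu i
    exact clear_floor (fun x hx => h1C j hj u hu x hx) i
  have C2 : ∀ j < k, ∀ u ∈ O j, ∀ i : ℤ, kap j - 1 ≤ sd' (i, ⌊h2 i⌋) u := by
    intro j hj u hu i
    exact clear_floor (fun x hx => h2C j hj u hu x hx) i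
  have C3 : ∀ x, (∀ i < k, ∀ u ∈ O i, Om i + 100 ≤ sd' (x, y0) u) →
      ∀ j < k, ∀ u ∈ O j, ∀ y, y0 ≤ y → y ≤ y0 + 10 → Om j + 90 ≤ sd' (x, y) u := by
    intro x hx j hj u hu y hy1 hy2
    have t1 := hx j hj u hu
    have t2 := sd'_triangle (x, y0) (x, y) u
    have t3 : sd' (x, y0) (x, y) ≤ 10 := by
      unfold sd'
      simp only [sub_self, abs_zero]
      exact max_le (by norm_num) (by rw [abs_le]; constructor <;> linarith)
    linarith
  have K1 : ∀ j, sz j + 20 ≤ kap j - 1 ∧ rho j ≤ kap j - 1 ∧ sz j + 20 ≤ Om j + 90 ∧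
      rho j ≤ Om j + 90 := by
    intro j
    obtain ⟨P, s, w, W, hP, hs, hsw, hwW, eP, es, ew, eW, e1, e2, e3, e4, e5, e6, e7⟩ := facts j
    rw [e2, e3, e4, e6]
    refine ⟨?_, ?_, ?_, ?_⟩ <;> linarith
  have fl1a : ⌊h1 a⌋ = y0 := by rw [e1a]; exact Int.floor_intCast _
  have fl1b : ⌊h1 b⌋ = y0 := by rw [e1b]; exact Int.floor_intCast _
  have fl2a : ⌊h2 a⌋ = y0 + 10 := by rw [e2a]; exact Int.floor_intCast _
  have fl2b : ⌊h2 b⌋ = y0 + 10 := by rw [e2b]; exact Int.floor_intCast _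
  have fval : ∀ x y : ℤ, (∀ i < k, ∀ u ∈ O i, rho i ≤ sd' (x, y) u) → ⌊f x y⌋ - a = x - a := by
    intro x y hxy
    rw [ff x y hxy, Int.floor_intCast]
  have incL : ∀ i : ℤ, a ≤ i → i < t → 39 / 50 ≤ h2 (i + 1) - h2 i ∧ h2 (i + 1) - h2 i ≤ 41 / 50 := by
    intro i hai hit
    have t1 := abs_le.1 (h2D i)
    rw [hg2L' i hit.le, hg2L' (i + 1) (by omega)] at t1
    push_cast at t1
    constructor <;> linarith [t1.1, t1.2]
  have incR : ∀ i : ℤ, t ≤ i → i < b →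
      -(41 / 50) ≤ h2 (i + 1) - h2 i ∧ h2 (i + 1) - h2 i ≤ -(39 / 50) := by
    intro i hti hib
    have t1 := abs_le.1 (h2D i)
    rw [hg2R i hti, hg2R (i + 1) (by omega)] at t1
    push_cast at t1
    constructor <;> linarith [t1.1, t1.2]
  refine ⟨{
    a := a, t := t, b := b
    lo := fun i => ⌊h1 i⌋
    hi := fun i => ⌊h2 i⌋
    ph := fun x y => ⌊f x y⌋ - a
    hat := by linarith [ha1'.1, ha1'.2, hb1'.1, hb1'.2]
    htb := by linarith [ha1'.1, ha1'.2, hb1'.1, hb1'.2]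
    ha0 := by linarith [ha1'.2]
    hb0 := by linarith [hb1'.1]
    lo0 := ?_, hi0 := ?_, hst := ?_, hen := ?_, lo1 := ?_, lo2 := ?_, hL1 := ?_, hL3 := ?_
    hR1 := ?_, hR3 := ?_, gap := ?_
    ba := by rw [hszk]; linarith [ha1'.1]
    bb := by rw [hszk]; linarith [hb1'.2]
    blo := ?_, bhi := ?_, clo := ?_, chi := ?_, ca := ?_, cb := ?_, phH := ?_, phV := ?_
    phlo := ?_, phhi := ?_, pha := ?_, phb := ?_, phc := ?_ }⟩
  · -- lo0
    have t1 := (B1 0 (by linarith [ha1'.2]) (by linarith [hb1'.1])).2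
    have t2 := mle 0
    have t3 := Int.floor_le (h1 0)
    have : (⌊h1 0⌋ : ℝ) ≤ 0 := by
      rw [y0R] at t1
      have t4 : h1 0 ≤ -12 * s + 1 / 50 * (51 * s) :=
        t1.trans (add_le_add le_rfl (mul_le_mul_of_nonneg_left t2 (by norm_num)))
      linarith
    exact_mod_cast this
  · -- hi0
    have t1 := (B2 0 (by linarith [ha1'.2]) (by linarith [hb1'.1])).1
    have t2 : 49 * (s:ℝ) ≤ min (((0:ℤ):ℝ) - a) ((b:ℝ) - ((0:ℤ):ℝ)) := by
      push_cast
      exact le_min (by linarith) (by linarith)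
    rw [Int.le_floor]
    push_cast at t1 t2 ⊢
    rw [y0R] at t1; linarith
  · simp only [fl1a, fl2a]
  · simp only [fl1b, fl2b]
  · intro i _ _
    exact floor_near (lt_of_le_of_lt (d1 i) (by norm_num))
  · intro i _ _
    refine floor_near ?_
    have t1 := d1 i
    have t2 := d1 (i + 1)
    have e : h1 (i + 2) - h1 i = (h1 (i + 1 + 1) - h1 (i + 1)) + (h1 (i + 1) - h1 i) := by
      have : i + 1 + 1 = i + 2 := by ring
      rw [this]; ring
    rw [e]
    refine lt_of_le_of_lt (abs_add_le _ _) ?_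
    linarith
  · intro i hai hit
    have t1 := incL i hai hit
    exact floor_up (by linarith [t1.1]) (by linarith [t1.2])
  · intro i hai hit
    have t1 := (incL i hai (by omega)).1
    have t2 := (incL (i + 1) (by omega) (by omega)).1
    have t3 := (incL (i + 2) (by omega) (by omega)).1
    refine floor_up2 ?_
    have e1 : i + 1 + 1 = i + 2 := by ring
    have e2 : i + 2 + 1 = i + 3 := by ring
    rw [e1] at t2
    rw [e2] at t3
    linarith
  · intro i hti hib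
    have t1 := incR i hti hib
    have t2 := floor_up (p := h2 (i + 1)) (q := h2 i) (by linarith [t1.2]) (by linarith [t1.1])
    constructor
    · linarith [t2.2]
    · exact t2.1
  · intro i hti hib
    have t1 := (incR i hti (by omega)).2
    have t2 := (incR (i + 1) (by omega) (by omega)).2
    have t3 := (incR (i + 2) (by omega) (by omega)).2
    have e1 : i + 1 + 1 = i + 2 := by ring
    have e2 : i + 2 + 1 = i + 3 := by ring
    rw [e1] at t2
    rw [e2] at t3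
    have t4 := floor_up2 (p := h2 (i + 3)) (q := h2 i) (by linarith)
    linarith
  · -- gap
    intro i hai hib
    have t1 := (B1 i hai hib).2
    have t2 := (B2 i hai hib).1
    have t3 := mnn i hai hib
    rw [Int.le_floor]
    push_cast
    have t4 := Int.floor_le (h1 i)
    linarith
  · -- blo
    intro i hai hib
    have t1 := (B1 i hai hib).1
    have t2 := mle i
    rw [Int.le_floor, hszk]
    push_cast
    rw [y0R] at t1
    linarith
  · -- bhi
    intro i hai hib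
    have t1 := (B2 i hai hib).2
    have t2 := mle i
    have t3 := Int.floor_le (h2 i)
    have : (⌊h2 i⌋ : ℝ) ≤ ((sz k : ℤ) : ℝ) := by
      rw [hszk]; push_cast
      rw [y0R] at t1
      linarith
    exact_mod_cast this
  · intro j hj u hu i _ _
    exact (K1 j).1.trans (C1 j hj u hu i)
  · intro j hj u hu i _ _
    exact (K1 j).1.trans (C2 j hj u hu i)
  · intro j hj u hu y hy1 hy2
    simp only [fl1a, fl2a] at hy1 hy2
    exact (K1 j).2.2.1.trans (C3 a ha3 j hj u hu y hy1 hy2)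
  · intro j hj u hu y hy1 hy2
    simp only [fl1b, fl2b] at hy1 hy2
    exact (K1 j).2.2.1.trans (C3 b hb3 j hj u hu y hy1 hy2)
  · intro x y
    have := floor_near2 (fH x y)
    have e : ⌊f (x + 1) y⌋ - a - (⌊f x y⌋ - a) = ⌊f (x + 1) y⌋ - ⌊f x y⌋ := by ring
    rw [e]; exact this
  · intro x y
    have := floor_near2 (fV x y)
    have e : ⌊f x (y + 1)⌋ - a - (⌊f x y⌋ - a) = ⌊f x (y + 1)⌋ - ⌊f x y⌋ := by ring
    rw [e]; exact this
  · intro i _ _
    exact fval i _ (fun j hj u hu => (K1 j).2.1.trans (C1 j hj u hu i))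
  · intro i _ _
    exact fval i _ (fun j hj u hu => (K1 j).2.1.trans (C2 j hj u hu i))
  · intro y hy1 hy2
    simp only [fl1a, fl2a] at hy1 hy2
    rw [fval a y (fun j hj u hu => (K1 j).2.2.2.trans (C3 a ha3 j hj u hu y hy1 hy2))]
    ring
  · intro y hy1 hy2
    simp only [fl1b, fl2b] at hy1 hy2
    exact fval b y (fun j hj u hu => (K1 j).2.2.2.trans (C3 b hb3 j hj u hu y hy1 hy2))
  · intro j hj u hu p q hp hq
    have t1 := fc j hj u hu p.1 p.2 (by
      have : sd' (p.1, p.2) u = sd p u := rfl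
      rw [this]; linarith)
    have t2 := fc j hj u hu q.1 q.2 (by
      have : sd' (q.1, q.2) u = sd q u := rfl
      rw [this]; linarith)
    simp only [t1, t2]

lemma sz_growth (j : ℕ) : 4 * sz j + 100 ≤ sz (j + 1) := by
  obtain ⟨P, s, w, W, hP, hs, hsw, hwW, eP, es, ew, eW, e1, e2, e3, e4, e5, e6, e7⟩ := facts j
  rw [e2]
  simp only [sz]
  rw [e1]
  linarith

end LCLZ.G

namespace LCLZ

open LCLZ.G in
theorem exists_shapes : ∃ sz rr : ℕ → ℤ, (∀ k, 1 ≤ sz k) ∧ (∀ k, 3 * sz k + 100 ≤ rr k) ∧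
    (∀ j k, j < k → 4 * sz j + 100 ≤ sz k) ∧
    ∀ k (O : ℕ → Set (ℤ × ℤ)), Sep rr k O → Nonempty (Shape sz k O) := by
  refine ⟨G.sz, G.rr, ?_, ?_, ?_, ?_⟩
  · intro k
    have := sl_ge k
    simp only [G.sz]; linarith
  · intro k
    obtain ⟨P, s, w, W, hP, hs, hsw, hwW, eP, es, ew, eW, e1, e2, e3, e4, e5, e6, e7⟩ := facts k
    rw [e2, e7]; linarith
  · intro j k hjk
    induction k with
    | zero => omega
    | succ k ih =>
      rcases Nat.lt_succ_iff_lt_or_eq.1 hjk with h | h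
      · have h1 := ih h
        have h2 := sz_growth k
        have h3 := sl_ge k
        have h4 : 1 ≤ G.sz k := by simp only [G.sz]; linarith
        linarith
      · subst h; exact sz_growth j
  · intro k O hO
    exact exists_shape k O hO

end LCLZ
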