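import Mathlib

/-!
# One step of the three constructions: heights, curves, corners
-/

namespace LCLZ.G

/-- supremum distance on the plane lattice (same body as `LCLZ.sd`) -/
def sd' (p q : ℤ × ℤ) : ℤ := max |p.1 - q.1| |p.2 - q.2|

lemma sd'_nonneg (p q : ℤ × ℤ) : 0 ≤ sd' p q := le_max_of_le_left (abs_nonneg _)

lemma abs1_le_sd' (p q : ℤ × ℤ) : |p.1 - q.1| ≤ sd' p q := le_max_left _ _

lemma abs2_le_sd' (p q : ℤ × ℤ) : |p.2 - q.2| ≤ sd' p q := le_max_right _ _

lemma sd'_comm (p q : ℤ × ℤ) : sd' p q = sd' q p := by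
  unfold sd'; rw [abs_sub_comm p.1, abs_sub_comm p.2]

lemma sd'_triangle (p q r : ℤ × ℤ) : sd' p r ≤ sd' p q + sd' q r := by
  unfold sd'
  apply max_le
  · calc |p.1 - r.1| = |(p.1 - q.1) + (q.1 - r.1)| := by ring_nf
      _ ≤ |p.1 - q.1| + |q.1 - r.1| := abs_add_le _ _
      _ ≤ _ := add_le_add (le_max_left _ _) (le_max_left _ _)
  · calc |p.2 - r.2| = |(p.2 - q.2) + (q.2 - r.2)| := by ring_nf
      _ ≤ |p.2 - q.2| + |q.2 - r.2| := abs_add_le _ _
      _ ≤ _ := add_le_add (le_max_right _ _) (le_max_right _ _)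

/-- A function on the integers with increments at most `c` is `c`-Lipschitz. -/
lemma lip_of_step {g : ℤ → ℝ} {c : ℝ} (h : ∀ x, |g (x + 1) - g x| ≤ c) (x y : ℤ) :
    |g x - g y| ≤ c * |(x : ℝ) - y| := by
  have key : ∀ (n : ℕ) (y : ℤ), |g (y + n) - g y| ≤ c * n := by
    intro n
    induction n with
    | zero => intro y; simp
    | succ n ih =>
      intro y
      have h1 := ih y
      have h2 := h (y + n)
      have : g (y + ((n + 1 : ℕ) : ℤ)) - g y =
          (g (y + n + 1) - g (y + n)) + (g (y + n) - g y) := by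
        push_cast; ring_nf
      rw [this]
      refine (abs_add_le _ _).trans ?_
      push_cast; linarith
  rcases le_total y x with hxy | hxy
  · obtain ⟨n, hn⟩ := Int.le.dest hxy
    have := key n y
    rw [hn] at this
    have h3 : |(x : ℝ) - y| = n := by
      have : (x : ℝ) - y = n := by rw [← hn]; push_cast; ring
      rw [this]; exact abs_of_nonneg (Nat.cast_nonneg _)
    rw [h3]; exact this
  · obtain ⟨n, hn⟩ := Int.le.dest hxy
    have := key n x
    rw [hn, abs_sub_comm] at this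
    have h3 : |(x : ℝ) - y| = n := by
      have : (x : ℝ) - y = -n := by rw [← hn]; push_cast; ring
      rw [this, abs_neg]; exact abs_of_nonneg (Nat.cast_nonneg _)
    rw [h3]; exact this

/-- Lipschitz estimate in the plane. -/
lemma lip_plane {f : ℤ → ℤ → ℝ} {c : ℝ} (hH : ∀ x y, |f (x + 1) y - f x y| ≤ c)
    (hV : ∀ x y, |f x (y + 1) - f x y| ≤ c) (hc : 0 ≤ c) (p q : ℤ × ℤ) :
    |f p.1 p.2 - f q.1 q.2| ≤ 2 * c * (sd' p q : ℝ) := by
  have h1 := lip_of_step (g := fun x => f x p.2) (fun x => hH x p.2) p.1 q.1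
  have h2 := lip_of_step (g := fun y => f q.1 y) (fun y => hV q.1 y) p.2 q.2
  have e1 : |(p.1 : ℝ) - q.1| ≤ (sd' p q : ℝ) := by
    have := abs1_le_sd' p q
    calc |(p.1 : ℝ) - q.1| = ((|p.1 - q.1| : ℤ) : ℝ) := by push_cast; rfl
      _ ≤ _ := by exact_mod_cast this
  have e2 : |(p.2 : ℝ) - q.2| ≤ (sd' p q : ℝ) := by
    have := abs2_le_sd' p q
    calc |(p.2 : ℝ) - q.2| = ((|p.2 - q.2| : ℤ) : ℝ) := by push_cast; rfl
      _ ≤ _ := by exact_mod_cast this
  have h3 : |f p.1 p.2 - f q.1 q.2| ≤ |f p.1 p.2 - f q.1 p.2| + |f q.1 p.2 - f q.1 q.2| :=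
    abs_sub_le _ _ _
  have h4 := mul_le_mul_of_nonneg_left e1 hc
  have h5 := mul_le_mul_of_nonneg_left e2 hc
  linarith

/-- soft threshold -/
noncomputable def soft (s t : ℝ) : ℝ := max (s - t) 0 + min (s + t) 0

lemma soft_zero (s : ℝ) : soft s 0 = s := by
  unfold soft
  rcases le_total s 0 with h | h
  · simp [h]
  · simp [h]

lemma soft_small {s t : ℝ} (h : |s| ≤ t) : soft s t = 0 := by
  unfold soft
  have := abs_le.1 h
  rw [max_eq_right (by linarith), min_eq_right (by linarith)]; simp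

lemma soft_zero_left {t : ℝ} (h : 0 ≤ t) : soft 0 t = 0 := soft_small (by simpa using h)

lemma soft_lip {s t s' t' : ℝ} (ht : 0 ≤ t) (ht' : 0 ≤ t') :
    |soft s t - soft s' t'| ≤ |s - s'| + |t - t'| := by
  have key : ∀ s t s' t' : ℝ, 0 ≤ t → 0 ≤ t' →
      soft s t - soft s' t' ≤ |s - s'| + |t - t'| := by
    intro s t s' t' ht ht'
    unfold soft
    have a1 := le_abs_self (s - s')
    have a2 := neg_abs_le (s - s')
    have b1 := le_abs_self (t - t')
    have b2 := neg_abs_le (t - t')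
    rcases le_total (s - t) 0 with h1 | h1 <;> rcases le_total (s + t) 0 with h2 | h2 <;>
    rcases le_total (s' - t') 0 with h3 | h3 <;> rcases le_total (s' + t') 0 with h4 | h4 <;>
    simp only [max_eq_left, max_eq_right, min_eq_left, min_eq_right, h1, h2, h3, h4] <;>
    linarith
  rw [abs_le]
  constructor
  · have := key s' t' s t ht' ht
    rw [abs_sub_comm s' s, abs_sub_comm t' t] at this
    linarith
  · exact key s t s' t' ht ht'

/-- truncated linear profile: `1` up to radius `r`, `0` from radius `R` on -/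
noncomputable def prof (r R d : ℝ) : ℝ := min 1 (max 0 ((R - d) / (R - r)))

lemma prof_nonneg (r R d : ℝ) : 0 ≤ prof r R d := le_min zero_le_one (le_max_left _ _)

lemma prof_le_one (r R d : ℝ) : prof r R d ≤ 1 := min_le_left _ _

lemma prof_eq_one {r R d : ℝ} (hrR : r < R) (h : d ≤ r) : prof r R d = 1 := by
  unfold prof
  apply min_eq_left
  apply le_max_of_le_right
  rw [le_div_iff₀ (by linarith)]; linarith

lemma prof_eq_zero {r R d : ℝ} (hrR : r < R) (h : R ≤ d) : prof r R d = 0 := by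
  unfold prof
  have : (R - d) / (R - r) ≤ 0 := div_nonpos_of_nonpos_of_nonneg (by linarith) (by linarith)
  rw [max_eq_left this]; simp

lemma prof_lip {r R d d' : ℝ} (hrR : r < R) : |prof r R d - prof r R d'| ≤ |d - d'| / (R - r) := by
  unfold prof
  have hpos : 0 < R - r := by linarith
  have h1 : |min 1 (max 0 ((R - d) / (R - r))) - min 1 (max 0 ((R - d') / (R - r)))| ≤
      |max 0 ((R - d) / (R - r)) - max 0 ((R - d') / (R - r))| := by
    have := abs_min_sub_min_le_max (1:ℝ) (max 0 ((R - d) / (R - r))) 1 (max 0 ((R - d') / (R - r)))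
    simpa using this
  have h2 : |max 0 ((R - d) / (R - r)) - max 0 ((R - d') / (R - r))| ≤
      |(R - d) / (R - r) - (R - d') / (R - r)| := by
    have := abs_max_sub_max_le_max (0:ℝ) ((R - d) / (R - r)) 0 ((R - d') / (R - r))
    simpa using this
  refine h1.trans (h2.trans (le_of_eq ?_))
  rw [← sub_div, abs_div, abs_of_pos hpos]
  congr 1
  rw [abs_sub_comm]; congr 1; ring

/-- Heights, one level: collapse the squares of radius `r` around the points of `O`. -/
theorem height_step (f : ℤ → ℤ → ℝ) (O : Set (ℤ × ℤ)) (r R L ε : ℝ) (hr : 0 ≤ r) (hrR : r < R)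
    (hL : 0 ≤ L) (hL2 : L ≤ 3 / 2) (hε : 3 * r ≤ ε * (R - r))
    (hsep : ∀ u ∈ O, ∀ v ∈ O, u ≠ v → 2 * R + 3 ≤ (sd' u v : ℝ))
    (hH : ∀ x y, |f (x + 1) y - f x y| ≤ L) (hV : ∀ x y, |f x (y + 1) - f x y| ≤ L) :
    ∃ f' : ℤ → ℤ → ℝ, (∀ x y, |f' (x + 1) y - f' x y| ≤ L + ε) ∧
      (∀ x y, |f' x (y + 1) - f' x y| ≤ L + ε) ∧
      (∀ u ∈ O, ∀ x y, (sd' (x, y) u : ℝ) ≤ r → f' x y = f u.1 u.2) ∧
      (∀ x y, (∀ u ∈ O, (sd' (x, y) u : ℝ) < R → f u.1 u.2 = f x y) → f' x y = f x y) := by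
  classical
  have hpos : 0 < R - r := by linarith
  have hε0 : 0 ≤ ε := by
    by_contra hneg
    push Not at hneg
    have := mul_neg_of_neg_of_pos hneg hpos
    linarith
  set val : ℤ × ℤ → ℤ → ℤ → ℝ := fun u x y =>
    f u.1 u.2 + soft (f x y - f u.1 u.2) (3 * r * prof r R (sd' (x, y) u : ℝ)) with hval
  set f' : ℤ → ℤ → ℝ := fun x y =>
    if h : ∃ u ∈ O, (sd' (x, y) u : ℝ) < R then val h.choose x y else f x y with hf'
  have huniq : ∀ x y, ∀ u ∈ O, ∀ v ∈ O, (sd' (x, y) u : ℝ) ≤ R + 1 →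
      (sd' (x, y) v : ℝ) ≤ R + 1 → u = v := by
    intro x y u hu v hv h1 h2
    by_contra hne
    have h3 := hsep u hu v hv hne
    have h4 : (sd' u v : ℝ) ≤ sd' u (x, y) + sd' (x, y) v := by
      exact_mod_cast sd'_triangle u (x, y) v
    rw [sd'_comm u (x, y)] at h4
    linarith
  have hout : ∀ u x y, R ≤ (sd' (x, y) u : ℝ) → val u x y = f x y := by
    intro u x y h
    simp only [hval]
    rw [prof_eq_zero hrR h, mul_zero, soft_zero]; ring
  have hform : ∀ x y, ∀ u ∈ O, (sd' (x, y) u : ℝ) ≤ R + 1 → f' x y = val u x y := by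
    intro x y u hu h
    by_cases hex : ∃ u ∈ O, (sd' (x, y) u : ℝ) < R
    · have hc := hex.choose_spec
      have : hex.choose = u := huniq x y _ hc.1 u hu (by linarith [hc.2]) h
      simp only [hf', dif_pos hex]
      rw [this]
    · simp only [hf', dif_neg hex]
      push Not at hex
      exact (hout u x y (hex u hu)).symm
  have hfar : ∀ x y, (∀ u ∈ O, R ≤ (sd' (x, y) u : ℝ)) → f' x y = f x y := by
    intro x y h
    have : ¬ ∃ u ∈ O, (sd' (x, y) u : ℝ) < R := by
      push Not; exact h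
    simp only [hf', dif_neg this]
  have hstep : ∀ x y x' y' : ℤ, |f x' y' - f x y| ≤ L → sd' (x', y') (x, y) ≤ 1 →
      |f' x' y' - f' x y| ≤ L + ε := by
    intro x y x' y' hf hs
    by_cases hex : ∃ u ∈ O, (sd' (x, y) u : ℝ) < R ∨ (sd' (x', y') u : ℝ) < R
    · obtain ⟨u, hu, hor⟩ := hex
      have hs' : (sd' (x', y') (x, y) : ℝ) ≤ 1 := by exact_mod_cast hs
      have t1 : (sd' (x, y) u : ℝ) ≤ sd' (x', y') (x, y) + sd' (x', y') u := by
        have := sd'_triangle (x, y) (x', y') u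
        rw [sd'_comm (x, y) (x', y')] at this
        exact_mod_cast this
      have t2 : (sd' (x', y') u : ℝ) ≤ sd' (x', y') (x, y) + sd' (x, y) u := by
        exact_mod_cast sd'_triangle (x', y') (x, y) u
      have h1 : (sd' (x, y) u : ℝ) ≤ R + 1 := by rcases hor with h | h <;> linarith
      have h2 : (sd' (x', y') u : ℝ) ≤ R + 1 := by rcases hor with h | h <;> linarith
      rw [hform x y u hu h1, hform x' y' u hu h2]
      simp only [hval]
      have h3 := soft_lip (s := f x' y' - f u.1 u.2) (t := 3 * r * prof r R (sd' (x', y') u : ℝ))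
        (s' := f x y - f u.1 u.2) (t' := 3 * r * prof r R (sd' (x, y) u : ℝ))
        (mul_nonneg (by linarith) (prof_nonneg _ _ _)) (mul_nonneg (by linarith) (prof_nonneg _ _ _))
      have h4 : |(sd' (x', y') u : ℝ) - sd' (x, y) u| ≤ 1 := by
        rw [abs_le]; constructor <;> linarith
      have h5 := prof_lip (r := r) (R := R) (d := (sd' (x', y') u : ℝ)) (d' := (sd' (x, y) u : ℝ)) hrR
      have h6 : |(sd' (x', y') u : ℝ) - sd' (x, y) u| / (R - r) ≤ 1 / (R - r) :=
        div_le_div_of_nonneg_right h4 hpos.le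
      have h7 : |3 * r * prof r R (sd' (x', y') u : ℝ) - 3 * r * prof r R (sd' (x, y) u : ℝ)| ≤ ε := by
        rw [← mul_sub, abs_mul, abs_of_nonneg (by linarith : (0:ℝ) ≤ 3 * r)]
        calc 3 * r * |prof r R (sd' (x', y') u : ℝ) - prof r R (sd' (x, y) u : ℝ)|
            ≤ 3 * r * (1 / (R - r)) :=
              mul_le_mul_of_nonneg_left (h5.trans h6) (by linarith)
          _ = 3 * r / (R - r) := by ring
          _ ≤ ε := by rw [div_le_iff₀ hpos]; exact hε
      have h8 : f u.1 u.2 + soft (f x' y' - f u.1 u.2) (3 * r * prof r R (sd' (x', y') u : ℝ)) -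
          (f u.1 u.2 + soft (f x y - f u.1 u.2) (3 * r * prof r R (sd' (x, y) u : ℝ))) =
          soft (f x' y' - f u.1 u.2) (3 * r * prof r R (sd' (x', y') u : ℝ)) -
          soft (f x y - f u.1 u.2) (3 * r * prof r R (sd' (x, y) u : ℝ)) := by ring
      rw [h8]
      have h9 : |f x' y' - f u.1 u.2 - (f x y - f u.1 u.2)| ≤ L := by
        have : f x' y' - f u.1 u.2 - (f x y - f u.1 u.2) = f x' y' - f x y := by ring
        rw [this]; exact hf
      linarith
    · push Not at hex
      rw [hfar x y (fun u hu => (hex u hu).1), hfar x' y' (fun u hu => (hex u hu).2)]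
      linarith
  refine ⟨f', ?_, ?_, ?_, ?_⟩
  · intro x y
    refine hstep x y (x + 1) y (hH x y) ?_
    simp [sd']
  · intro x y
    refine hstep x y x (y + 1) (hV x y) ?_
    simp [sd']
  · intro u hu x y h
    rw [hform x y u hu (by linarith)]
    simp only [hval]
    rw [prof_eq_one hrR h, mul_one, soft_small, add_zero]
    have h1 := lip_plane hH hV hL (x, y) u
    have h2 : (0:ℝ) ≤ sd' (x, y) u := by exact_mod_cast sd'_nonneg _ _
    simp only at h1
    calc |f x y - f u.1 u.2| ≤ 2 * L * (sd' (x, y) u : ℝ) := h1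
      _ ≤ 2 * L * r := mul_le_mul_of_nonneg_left h (by linarith)
      _ ≤ 3 * r := by nlinarith
  · intro x y h
    by_cases hex : ∃ u ∈ O, (sd' (x, y) u : ℝ) < R
    · obtain ⟨u, hu, hlt⟩ := hex
      rw [hform x y u hu (by linarith)]
      simp only [hval]
      rw [h u hu hlt, sub_self, soft_zero_left (mul_nonneg (by linarith) (prof_nonneg _ _ _)),
        add_zero]
    · push Not at hex
      exact hfar x y hex

end LCLZ.G
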