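import Pool.Agent.helper28.LCL.Steps

/-!
# One step of the constructions of curves and of corners
-/

namespace LCLZ.G

lemma abs_lt_of_prof_ne {κ ω d : ℝ} (h : κ < ω) (hd : prof κ ω d ≠ 0) : d < ω := by
  by_contra hcon
  exact hd (prof_eq_zero h (not_lt.1 hcon))

/-- Curves, one level: push a graph away from the points of `O`. -/
theorem curve_step (g : ℤ → ℝ) (O : Set (ℤ × ℤ)) (κ ω S ε : ℝ) (hκ : 1 ≤ κ) (hκω2 : 2 * κ ≤ ω)
    (hε : 2 * κ ≤ ε * (ω - κ)) (hS : 4 * ω + 8 * κ ≤ S)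
    (hsep : ∀ u ∈ O, ∀ v ∈ O, u ≠ v → S ≤ (sd' u v : ℝ))
    (hg : ∀ x, |g (x + 1) - g x| ≤ 9 / 10) :
    ∃ g' : ℤ → ℝ, (∀ x, |(g' (x + 1) - g' x) - (g (x + 1) - g x)| ≤ ε) ∧
      (∀ x, |g' x - g x| ≤ 2 * κ) ∧
      (∀ u ∈ O, ∀ x : ℤ, |(x : ℝ) - u.1| ≤ κ → 11 / 10 * κ ≤ |g' x - u.2|) ∧
      (∀ x : ℤ, (∀ u ∈ O, |(x : ℝ) - u.1| < ω → 2 * ω < |g x - u.2|) → g' x = g x) := by
  classical
  have hκω : κ < ω := by linarith
  have hpos : 0 < ω - κ := by linarith
  have hε0 : 0 ≤ ε := by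
    by_contra hneg
    push Not at hneg
    have := mul_neg_of_neg_of_pos hneg hpos
    linarith
  have hlip := lip_of_step hg
  -- active points
  set act : ℤ × ℤ → Prop := fun u => |g u.1 - u.2| ≤ 2 * κ with hact
  set val : ℤ × ℤ → ℤ → ℝ := fun u x =>
    (if (u.2 : ℝ) ≤ g u.1 then 1 else -1) * (2 * κ * prof κ ω |(x : ℝ) - u.1|) with hval
  set B : ℤ → ℝ := fun x =>
    if h : ∃ u ∈ O, act u ∧ |(x : ℝ) - u.1| < ω then val h.choose x else 0 with hB
  have hvalabs : ∀ u x, |val u x| ≤ 2 * κ := by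
    intro u x
    simp only [hval]
    have h1 := prof_nonneg κ ω |(x : ℝ) - u.1|
    have h2 := prof_le_one κ ω |(x : ℝ) - u.1|
    rw [abs_mul]
    have h3 : |(if (u.2 : ℝ) ≤ g u.1 then (1:ℝ) else -1)| = 1 := by split_ifs <;> simp
    rw [h3, one_mul, abs_of_nonneg (by positivity)]
    nlinarith
  -- far second coordinates
  have hfar2 : ∀ u ∈ O, ∀ v ∈ O, u ≠ v → |(u.1 : ℝ) - v.1| < S → S ≤ |(u.2 : ℝ) - v.2| := by
    intro u hu v hv hne h1
    have h2 := hsep u hu v hv hne
    by_contra hcon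
    push Not at hcon
    have h3 : (sd' u v : ℝ) < S := by
      have e1 : |(u.1 : ℝ) - v.1| = ((|u.1 - v.1| : ℤ) : ℝ) := by push_cast; rfl
      have e2 : |(u.2 : ℝ) - v.2| = ((|u.2 - v.2| : ℤ) : ℝ) := by push_cast; rfl
      rw [e1] at h1
      rw [e2] at hcon
      unfold sd'
      push_cast at h1 hcon ⊢
      exact max_lt h1 hcon
    linarith
  have huniq : ∀ x : ℤ, ∀ u ∈ O, ∀ v ∈ O, act u → act v → |(x : ℝ) - u.1| ≤ ω + 1 →
      |(x : ℝ) - v.1| ≤ ω + 1 → u = v := by
    intro x u hu v hv ha hb h1 h2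
    by_contra hne
    have h3 : |(u.1 : ℝ) - v.1| ≤ 2 * ω + 2 := by
      have : (u.1 : ℝ) - v.1 = ((x : ℝ) - v.1) - ((x : ℝ) - u.1) := by ring
      rw [this]; exact (abs_sub _ _).trans (by linarith)
    have h4 := hfar2 u hu v hv hne (by linarith)
    have h5 : |g u.1 - g v.1| ≤ 9 / 10 * (2 * ω + 2) :=
      (hlip u.1 v.1).trans (mul_le_mul_of_nonneg_left h3 (by norm_num))
    have h6 : |(u.2 : ℝ) - v.2| ≤ 2 * κ + 9 / 10 * (2 * ω + 2) + 2 * κ := by
      have : (u.2 : ℝ) - v.2 = -(g u.1 - u.2) + (g u.1 - g v.1) + (g v.1 - v.2) := by ring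
      rw [this]
      refine (abs_add_le _ _).trans (add_le_add ((abs_add_le _ _).trans ?_) hb)
      rw [abs_neg]; exact add_le_add ha h5
    linarith
  have hout : ∀ (u : ℤ × ℤ) (x : ℤ), ω ≤ |(x : ℝ) - u.1| → val u x = 0 := by
    intro u x h
    simp only [hval]
    rw [prof_eq_zero hκω h]; ring
  have hform : ∀ x : ℤ, ∀ u ∈ O, act u → |(x : ℝ) - u.1| ≤ ω + 1 → B x = val u x := by
    intro x u hu ha h
    by_cases hex : ∃ u ∈ O, act u ∧ |(x : ℝ) - u.1| < ω
    · have hc := hex.choose_spec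
      have : hex.choose = u := huniq x _ hc.1 u hu hc.2.1 ha (by linarith [hc.2.2]) h
      simp only [hB, dif_pos hex]
      rw [this]
    · simp only [hB, dif_neg hex]
      push Not at hex
      exact (hout u x (hex u hu ha)).symm
  have hzero : ∀ x : ℤ, (∀ u ∈ O, act u → ω ≤ |(x : ℝ) - u.1|) → B x = 0 := by
    intro x h
    have : ¬ ∃ u ∈ O, act u ∧ |(x : ℝ) - u.1| < ω := by
      push Not; exact h
    simp only [hB, dif_neg this]
  have hBabs : ∀ x, |B x| ≤ 2 * κ := by
    intro x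
    by_cases hex : ∃ u ∈ O, act u ∧ |(x : ℝ) - u.1| < ω
    · simp only [hB, dif_pos hex]; exact hvalabs _ _
    · simp only [hB, dif_neg hex]; rw [abs_zero]; linarith
  refine ⟨fun x => g x + B x, ?_, ?_, ?_, ?_⟩
  · intro x
    have e : (g (x + 1) + B (x + 1) - (g x + B x)) - (g (x + 1) - g x) = B (x + 1) - B x := by ring
    simp only
    rw [e]
    have hone : ∀ u : ℤ × ℤ, |(((x + 1 : ℤ) : ℝ) - u.1) - ((x : ℝ) - u.1)| = 1 := by
      intro u; push_cast
      have : (x : ℝ) + 1 - u.1 - ((x : ℝ) - u.1) = 1 := by ring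
      rw [this]; simp
    by_cases hex : ∃ u ∈ O, act u ∧ (|(x : ℝ) - u.1| < ω ∨ |((x + 1 : ℤ) : ℝ) - u.1| < ω)
    · obtain ⟨u, hu, ha, hor⟩ := hex
      have h0 := abs_abs_sub_abs_le (((x + 1 : ℤ) : ℝ) - u.1) ((x : ℝ) - u.1)
      rw [hone u] at h0
      have h0' := abs_le.1 h0
      have h1 : |(x : ℝ) - u.1| ≤ ω + 1 := by rcases hor with h | h <;> linarith [h0'.1, h0'.2]
      have h2 : |((x + 1 : ℤ) : ℝ) - u.1| ≤ ω + 1 := by
        rcases hor with h | h <;> linarith [h0'.1, h0'.2]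
      rw [hform x u hu ha h1, hform (x + 1) u hu ha h2]
      simp only [hval]
      rw [← mul_sub, abs_mul]
      have h3 : |(if (u.2 : ℝ) ≤ g u.1 then (1:ℝ) else -1)| = 1 := by split_ifs <;> simp
      rw [h3, one_mul, ← mul_sub, abs_mul, abs_of_nonneg (by linarith : (0:ℝ) ≤ 2 * κ)]
      have h5 := prof_lip (r := κ) (R := ω) (d := |((x + 1 : ℤ) : ℝ) - u.1|)
        (d' := |(x : ℝ) - u.1|) hκω
      have h6 : abs (abs (((x + 1 : ℤ) : ℝ) - u.1) - abs ((x : ℝ) - u.1)) / (ω - κ) ≤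
          1 / (ω - κ) :=
        div_le_div_of_nonneg_right h0 hpos.le
      calc 2 * κ * abs (prof κ ω (abs (((x + 1 : ℤ) : ℝ) - u.1)) -
            prof κ ω (abs ((x : ℝ) - u.1)))
          ≤ 2 * κ * (1 / (ω - κ)) := mul_le_mul_of_nonneg_left (h5.trans h6) (by linarith)
        _ = 2 * κ / (ω - κ) := by ring
        _ ≤ ε := by rw [div_le_iff₀ hpos]; exact hε
    · push Not at hex
      rw [hzero x (fun u hu ha => (hex u hu ha).1), hzero (x + 1) (fun u hu ha => (hex u hu ha).2)]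
      simpa using hε0
  · intro x
    have e : g x + B x - g x = B x := by ring
    simp only
    rw [e]; exact hBabs x
  · intro u hu x hx
    simp only
    have hgx : |g x - g u.1| ≤ 9 / 10 * κ :=
      (hlip x u.1).trans (mul_le_mul_of_nonneg_left hx (by norm_num))
    have hgx' := abs_le.1 hgx
    by_cases ha : act u
    · rw [hform x u hu ha (by linarith)]
      simp only [hval]
      rw [prof_eq_one hκω hx]
      split_ifs with hs
      · have : 11 / 10 * κ ≤ g x + 1 * (2 * κ * 1) - u.2 := by linarith [hgx'.1]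
        exact this.trans (le_abs_self _)
      · push Not at hs
        have : g x + -1 * (2 * κ * 1) - u.2 ≤ -(11 / 10 * κ) := by linarith [hgx'.2]
        have h2 := neg_abs_le (g x + -1 * (2 * κ * 1) - u.2)
        linarith
    · have ha' : 2 * κ < |g u.1 - u.2| := not_le.1 ha
      by_cases hex : ∃ v ∈ O, act v ∧ |(x : ℝ) - v.1| < ω
      · obtain ⟨v, hv, hav, hxv⟩ := hex
        have hne : u ≠ v := by rintro rfl; exact ha hav
        have h1 : |(u.1 : ℝ) - v.1| < S := by
          have : (u.1 : ℝ) - v.1 = ((x : ℝ) - v.1) - ((x : ℝ) - u.1) := by ring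
          rw [this]; exact lt_of_le_of_lt (abs_sub _ _) (by linarith)
        have h2 := hfar2 u hu v hv hne h1
        have h3 : |g x - g v.1| ≤ 9 / 10 * ω :=
          (hlip x v.1).trans (mul_le_mul_of_nonneg_left hxv.le (by norm_num))
        have h4 : |(u.2 : ℝ) - v.2| ≤ |g x + B x - u.2| + 2 * κ + 9 / 10 * ω + 2 * κ := by
          have : (u.2 : ℝ) - v.2 = -(g x + B x - u.2) + B x + (g x - g v.1) + (g v.1 - v.2) := by
            ring
          rw [this]
          refine (abs_add_le _ _).trans (add_le_add ((abs_add_le _ _).trans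
            (add_le_add ((abs_add_le _ _).trans (add_le_add ?_ (hBabs x))) h3)) hav)
          rw [abs_neg]
        linarith
      · push Not at hex
        rw [hzero x hex, add_zero]
        have h5 : |g u.1 - u.2| ≤ |g x - u.2| + 9 / 10 * κ := by
          have : g u.1 - u.2 = (g x - u.2) - (g x - g u.1) := by ring
          rw [this]; exact (abs_sub _ _).trans (by linarith)
        linarith
  · intro x hx
    simp only
    rw [hzero x, add_zero]
    intro u hu ha
    by_contra hcon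
    push Not at hcon
    have h1 := hx u hu hcon
    have h2 : |g x - u.2| ≤ 9 / 10 * ω + 2 * κ := by
      have : g x - u.2 = (g x - g u.1) + (g u.1 - u.2) := by ring
      rw [this]
      exact (abs_add_le _ _).trans (add_le_add
        ((hlip x u.1).trans (mul_le_mul_of_nonneg_left hcon.le (by norm_num))) ha)
    linarith

/-- Corners, one level. -/
theorem corner_step (x y : ℤ) (O : Set (ℤ × ℤ)) (D : ℤ) (hD : 0 ≤ D)
    (hsep : ∀ u ∈ O, ∀ v ∈ O, u ≠ v → 4 * D ≤ sd' u v) :
    ∃ x' : ℤ, |x' - x| ≤ 2 * D ∧ 2 ∣ x' - x ∧ ∀ u ∈ O, D ≤ sd' (x', y) u := by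
  by_cases h : ∃ u ∈ O, sd' (x, y) u < D
  · obtain ⟨u, hu, hlt⟩ := h
    refine ⟨x + 2 * D, ?_, ⟨D, by ring⟩, ?_⟩
    · have : x + 2 * D - x = 2 * D := by ring
      rw [this, abs_of_nonneg (by linarith)]
    · intro v hv
      by_cases hvu : v = u
      · subst hvu
        have h1 := abs1_le_sd' (x, y) v
        have h2 := abs1_le_sd' (x + 2 * D, y) v
        simp only at h1 h2
        have h3 := abs_le.1 (h1.trans hlt.le)
        have h4 := le_abs_self (x + 2 * D - v.1)
        linarith [h3.1]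
      · have h1 := hsep v hv u hu hvu
        have h2 := sd'_triangle v (x + 2 * D, y) u
        have h3 := sd'_triangle (x + 2 * D, y) (x, y) u
        have h4 : sd' (x + 2 * D, y) (x, y) = 2 * D := by
          unfold sd'
          simp only [sub_self, abs_zero]
          have : x + 2 * D - x = 2 * D := by ring
          rw [this, abs_of_nonneg (by linarith), max_eq_left (by linarith)]
        rw [sd'_comm v (x + 2 * D, y)] at h2
        linarith
  · push Not at h
    exact ⟨x, by simpa using (by linarith : (0:ℤ) ≤ 2 * D), by simp, h⟩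

end LCLZ.G
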